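import Pool.Agent.J4H50.TF.B
import Pool.Agent.Y229.PS.Red

set_option autoImplicit false
set_option linter.unusedSectionVars false
set_option linter.unusedVariables false

/-! # From the functional equation with a parameter to the functional equation at one number -/

namespace Pool.Agent.J4H50.TF

open Pool.Agent.Y229.PS (DD IsFormalBFunction)

variable {σ : Type} [Finite σ]

/-- polynomial families of power series -/
def PF (h : ℂ → MvPowerSeries σ ℂ) : Prop :=
  ∃ p : Polynomial (MvPowerSeries σ ℂ), ∀ s, h s = p.eval (MvPowerSeries.C s)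

theorem PF.const (a : MvPowerSeries σ ℂ) : PF fun _ => a :=
  ⟨Polynomial.C a, fun s => by rw [Polynomial.eval_C]⟩

theorem PF.add {h h' : ℂ → MvPowerSeries σ ℂ} (H : PF h) (H' : PF h') :
    PF fun s => h s + h' s := by
  obtain ⟨p, hp⟩ := H
  obtain ⟨p', hp'⟩ := H'
  exact ⟨p + p', fun s => by beta_reduce; rw [hp, hp', Polynomial.eval_add]⟩

theorem PF.mul {h h' : ℂ → MvPowerSeries σ ℂ} (H : PF h) (H' : PF h') :
    PF fun s => h s * h' s := by
  obtain ⟨p, hp⟩ := H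
  obtain ⟨p', hp'⟩ := H'
  exact ⟨p * p', fun s => by beta_reduce; rw [hp, hp', Polynomial.eval_mul]⟩

theorem PF.id : PF fun s => (MvPowerSeries.C s : MvPowerSeries σ ℂ) :=
  ⟨Polynomial.X, fun s => by rw [Polynomial.eval_X]⟩

theorem PF.pow {h : ℂ → MvPowerSeries σ ℂ} (H : PF h) (n : ℕ) : PF fun s => h s ^ n := by
  obtain ⟨p, hp⟩ := H
  exact ⟨p ^ n, fun s => by beta_reduce; rw [hp, Polynomial.eval_pow]⟩

theorem PF.sum {ι : Type} (S : Finset ι) {h : ι → ℂ → MvPowerSeries σ ℂ} (H : ∀ i ∈ S, PF (h i)) :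
    PF fun s => ∑ i ∈ S, h i s := by
  classical
  induction S using Finset.induction_on with
  | empty =>
    simp only [Finset.sum_empty]
    exact PF.const 0
  | insert i S hi ih =>
    simp only [Finset.sum_insert hi]
    exact (H i (Finset.mem_insert_self i S)).add (ih fun j hj => H j (Finset.mem_insert_of_mem hj))

theorem PF.pd {h : ℂ → MvPowerSeries σ ℂ} (H : PF h) (i : σ) :
    PF fun s => MvPowerSeries.pderiv ℂ i (h s) := by
  obtain ⟨p, hp⟩ := H
  have key : ∀ p : Polynomial (MvPowerSeries σ ℂ), ∃ p' : Polynomial (MvPowerSeries σ ℂ),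
      ∀ s : ℂ, MvPowerSeries.pderiv ℂ i (p.eval (MvPowerSeries.C s)) =
        p'.eval (MvPowerSeries.C s) := by
    intro p
    induction p using Polynomial.induction_on' with
    | add p q hp hq =>
      obtain ⟨p', hp'⟩ := hp
      obtain ⟨q', hq'⟩ := hq
      exact ⟨p' + q', fun s => by rw [Polynomial.eval_add, map_add, hp', hq', Polynomial.eval_add]⟩
    | monomial n a =>
      refine ⟨Polynomial.monomial n (MvPowerSeries.pderiv ℂ i a), fun s => ?_⟩
      rw [Polynomial.eval_monomial, Polynomial.eval_monomial, ← map_pow, Derivation.leibniz,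
        MvPowerSeries.pderiv_C, smul_zero, zero_add, smul_eq_mul, mul_comm]
  obtain ⟨p', hp'⟩ := key p
  exact ⟨p', fun s => by beta_reduce; rw [hp, hp']⟩

/-- two polynomial families which agree at the natural numbers -/
theorem PF.eq {h h' : ℂ → MvPowerSeries σ ℂ} (H : PF h) (H' : PF h')
    (e : ∀ s : ℕ, h s = h' s) (s : ℂ) : h s = h' s := by
  obtain ⟨p, hp⟩ := H
  obtain ⟨p', hp'⟩ := H'
  haveI : IsDomain (MvPowerSeries σ ℂ) := NoZeroDivisors.to_isDomain _
  have h1 : p - p' = 0 := by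
    refine Polynomial.eq_zero_of_infinite_isRoot _ (Set.Infinite.mono (s := Set.range
      (fun s : ℕ => (MvPowerSeries.C (s : ℂ) : MvPowerSeries σ ℂ))) ?_ ?_)
    · rintro _ ⟨s, rfl⟩
      show (p - p').IsRoot _
      rw [Polynomial.IsRoot.def, Polynomial.eval_sub, ← hp, ← hp', e, sub_self]
    · refine Set.infinite_range_of_injective fun a b hab => ?_
      have h2 : (MvPowerSeries.C (a : ℂ) : MvPowerSeries σ ℂ) = MvPowerSeries.C (b : ℂ) := hab
      have h3 := congrArg MvPowerSeries.constantCoeff h2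
      rw [MvPowerSeries.constantCoeff_C, MvPowerSeries.constantCoeff_C] at h3
      exact_mod_cast h3
  rw [hp, hp', sub_eq_zero.1 h1]

/-- the operators preserve the ideals -/
def TQ (f : MvPowerSeries σ ℂ) (Q : Module.End ℂ (MvPowerSeries σ ℂ)) : Prop :=
  ∀ (k : ℕ) (h : ℂ → MvPowerSeries σ ℂ), PF h →
    ((∀ s₀, h s₀ ∈ KF s₀ f k) ∧ f ^ (k + 1) ∣ h (-1)) →
    ∃ (k' : ℕ) (h' : ℂ → MvPowerSeries σ ℂ), PF h' ∧
      ((∀ s₀, h' s₀ ∈ KF s₀ f k') ∧ f ^ (k' + 1) ∣ h' (-1)) ∧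
      ∀ (s : ℕ) (g : MvPowerSeries σ ℂ), f ^ k * g = h s * f ^ s → f ^ k' * Q g = h' s * f ^ s

/-- derivatives -/
theorem SF_dvd {f a : MvPowerSeries σ ℂ} {k : ℕ} (i : σ) (h : f ^ (k + 1) ∣ a) :
    f ^ (k + 1 + 1) ∣ SF (-1) f k i a := by
  obtain ⟨q, rfl⟩ := h
  refine ⟨MvPowerSeries.pderiv ℂ i q, ?_⟩
  unfold SF
  have e1 : ((-1 : ℂ) - (k : ℂ)) • (MvPowerSeries.pderiv ℂ i f * (f ^ (k + 1) * q)) =
      (-((k + 1 : ℕ) : MvPowerSeries σ ℂ)) * (MvPowerSeries.pderiv ℂ i f * (f ^ (k + 1) * q)) := by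
    have : (-1 : ℂ) - (k : ℂ) = -((k + 1 : ℕ) : ℂ) := by push_cast; ring
    rw [this, MvPowerSeries.smul_eq_C_mul, map_neg, map_natCast]
  rw [e1, Derivation.leibniz, Derivation.leibniz_pow, Nat.add_sub_cancel, smul_eq_mul,
    smul_eq_mul, smul_eq_mul, nsmul_eq_mul]
  ring

theorem TQ_mul (f u : MvPowerSeries σ ℂ) : TQ f (LinearMap.mulLeft ℂ u) := by
  intro k h H hh
  refine ⟨k, fun s => u * h s, (PF.const u).mul H, ⟨fun s => Ideal.mul_mem_left _ _ (hh.1 s),
    Dvd.dvd.mul_left hh.2 _⟩, ?_⟩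
  intro s g hg
  show f ^ k * (u * g) = _
  linear_combination u * hg

theorem TQ_pd (f : MvPowerSeries σ ℂ) (i : σ) : TQ f
    ((MvPowerSeries.pderiv ℂ i : Derivation ℂ (MvPowerSeries σ ℂ) (MvPowerSeries σ ℂ)) :
      MvPowerSeries σ ℂ →ₗ[ℂ] MvPowerSeries σ ℂ) := by
  intro k h H hh
  refine ⟨k + 1, fun s => SF s f k i (h s), ?_, ⟨fun s => KF_SF i (hh.1 s), SF_dvd i hh.2⟩, ?_⟩
  · have h1 : PF (fun s : ℂ => ((s - (k : ℂ)) • (1 : MvPowerSeries σ ℂ))) := by
      have h2 := (PF.id (σ := σ)).add (PF.const (MvPowerSeries.C (-(k : ℂ))))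
      have e : (fun s : ℂ => ((s - (k : ℂ)) • (1 : MvPowerSeries σ ℂ))) =
          fun s => MvPowerSeries.C s + MvPowerSeries.C (-(k : ℂ)) := by
        funext s
        rw [← map_add, MvPowerSeries.smul_eq_C_mul, mul_one, sub_eq_add_neg]
      rw [e]
      exact h2
    have h3 := ((PF.const f).mul (H.pd i)).add
      (h1.mul ((PF.const (MvPowerSeries.pderiv ℂ i f)).mul H))
    have e : (fun s => SF s f k i (h s)) = fun s => f * MvPowerSeries.pderiv ℂ i (h s) +
        ((s - (k : ℂ)) • (1 : MvPowerSeries σ ℂ)) * (MvPowerSeries.pderiv ℂ i f * h s) := by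
      funext s
      unfold SF
      rw [smul_mul_assoc, one_mul]
    rw [e]
    exact h3
  · intro s g hg
    show f ^ (k + 1) * MvPowerSeries.pderiv ℂ i g = _
    have h1 := congrArg (MvPowerSeries.pderiv ℂ i) hg
    rw [Derivation.leibniz, Derivation.leibniz, Derivation.leibniz_pow, Derivation.leibniz_pow,
      smul_eq_mul, smul_eq_mul, smul_eq_mul, smul_eq_mul, smul_eq_mul, smul_eq_mul,
      nsmul_eq_mul, nsmul_eq_mul] at h1
    have h2 : ∀ m : ℕ, (m : MvPowerSeries σ ℂ) * (f ^ (m - 1) * f) = m * f ^ m := by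
      intro m
      rcases m with _ | m
      · rw [Nat.cast_zero, zero_mul, zero_mul]
      · rw [Nat.add_sub_cancel, pow_succ]
    unfold SF
    beta_reduce
    have e1 : ((s : ℂ) - (k : ℂ)) • (MvPowerSeries.pderiv ℂ i f * h s) =
        ((s : MvPowerSeries σ ℂ) - (k : MvPowerSeries σ ℂ)) *
          (MvPowerSeries.pderiv ℂ i f * h s) := by
      rw [MvPowerSeries.smul_eq_C_mul, map_sub, map_natCast, map_natCast]
    rw [e1]
    linear_combination f * h1 - (g * MvPowerSeries.pderiv ℂ i f) * h2 k +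
      (h s * MvPowerSeries.pderiv ℂ i f) * h2 s - (k * MvPowerSeries.pderiv ℂ i f) * hg

theorem TQ_add {f : MvPowerSeries σ ℂ} {Q Q' : Module.End ℂ (MvPowerSeries σ ℂ)} (h : TQ f Q)
    (h' : TQ f Q') : TQ f (Q + Q') := by
  intro k a A ha
  obtain ⟨k1, b, B, hb, e⟩ := h k a A ha
  obtain ⟨k2, b', B', hb', e'⟩ := h' k a A ha
  refine ⟨k1 + k2, fun s => f ^ k2 * b s + f ^ k1 * b' s,
    ((PF.const _).mul B).add ((PF.const _).mul B'), ⟨fun s => ?_, ?_⟩, fun s g hg => ?_⟩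
  · refine Ideal.add_mem _ (KF_pow (hb.1 s) k2) ?_
    have := KF_pow (hb'.1 s) k1
    rwa [add_comm k2 k1] at this
  · refine dvd_add ?_ ?_
    · have := mul_dvd_mul_left (f ^ k2) hb.2
      rwa [← pow_add, ← add_assoc, add_comm k2 k1] at this
    · have := mul_dvd_mul_left (f ^ k1) hb'.2
      rwa [← pow_add, ← add_assoc] at this
  · rw [LinearMap.add_apply]
    have h1 := e s g hg
    have h2 := e' s g hg
    rw [pow_add]
    linear_combination f ^ k2 * h1 + f ^ k1 * h2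

theorem TQ_comp {f : MvPowerSeries σ ℂ} {Q Q' : Module.End ℂ (MvPowerSeries σ ℂ)} (h : TQ f Q)
    (h' : TQ f Q') : TQ f (Q * Q') := by
  intro k a A ha
  obtain ⟨k1, b, B, hb, e⟩ := h' k a A ha
  obtain ⟨k2, b', B', hb', e'⟩ := h k1 b B hb
  exact ⟨k2, b', B', hb', fun s g hg => e' s _ (e s g hg)⟩

theorem TQ_DD {n : ℕ} (f : MvPowerSeries (Fin n) ℂ) (Q : DD n) :
    TQ f (Q : Module.End ℂ (MvPowerSeries (Fin n) ℂ)) := by
  obtain ⟨Q, hQ⟩ := Q
  show TQ f Q
  unfold DD at hQ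
  induction hQ using Algebra.adjoin_induction with
  | mem x hx =>
    rcases hx with ⟨u, rfl⟩ | ⟨i, rfl⟩
    · exact TQ_mul f u
    · exact TQ_pd f i
  | algebraMap r =>
    have e : algebraMap ℂ (Module.End ℂ (MvPowerSeries (Fin n) ℂ)) r =
        LinearMap.mulLeft ℂ (MvPowerSeries.C r) := by
      refine LinearMap.ext fun x => ?_
      rw [Module.algebraMap_end_apply, LinearMap.mulLeft_apply, MvPowerSeries.smul_eq_C_mul]
    rw [e]
    exact TQ_mul f _
  | add x y _ _ hx hy => exact TQ_add hx hy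
  | mul x y _ _ hx hy => exact TQ_comp hx hy

/-- the functional equation at a number -/
theorem formal_key {n : ℕ} {f : MvPowerSeries (Fin n) ℂ} (hf : f ≠ 0) {b : Polynomial ℂ}
    (hb : IsFormalBFunction f b) : ∃ K : ℕ,
      (∀ s : ℂ, f ^ K * MvPowerSeries.C (b.eval s) ∈ KF s f K) ∧
      f ^ (K + 1) ∣ f ^ K * MvPowerSeries.C (b.eval (-1)) := by
  classical
  obtain ⟨P, hP⟩ := hb
  have h1 : ∀ m : ℕ, ∃ (k' : ℕ) (h' : ℂ → MvPowerSeries (Fin n) ℂ), PF h' ∧
      ((∀ s₀, h' s₀ ∈ KF s₀ f k') ∧ f ^ (k' + 1) ∣ h' (-1)) ∧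
      ∀ (s : ℕ) (g : MvPowerSeries (Fin n) ℂ), f ^ 0 * g = f * f ^ s →
          f ^ k' * (P m : Module.End ℂ (MvPowerSeries (Fin n) ℂ)) g = h' s * f ^ s := fun m =>
    TQ_DD f (P m) 0 (fun _ => f) (PF.const f) ⟨fun s₀ => KF_f s₀ f, by
      rw [zero_add, pow_one]⟩
  choose k h hh hk he using h1
  set K := P.support.sup k with hK
  have hkK : ∀ m ∈ P.support, k m ≤ K := fun m hm => Finset.le_sup hm
  set H : ℂ → MvPowerSeries (Fin n) ℂ := fun s =>
    ∑ m ∈ P.support, MvPowerSeries.C s ^ m * (f ^ (K - k m) * h m s) with hH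
  have hHP : PF H := PF.sum _ fun m _ => (PF.id.pow m).mul ((PF.const _).mul (hh m))
  have hHK : ∀ s₀, H s₀ ∈ KF s₀ f K := by
    intro s₀
    refine Ideal.sum_mem _ fun m hm => Ideal.mul_mem_left _ _ ?_
    have := KF_pow ((hk m).1 s₀) (K - k m)
    rwa [Nat.add_sub_cancel' (hkK m hm)] at this
  have hHd : f ^ (K + 1) ∣ H (-1) := by
    refine Finset.dvd_sum fun m hm => Dvd.dvd.mul_left ?_ _
    have := mul_dvd_mul_left (f ^ (K - k m)) (hk m).2
    rwa [← pow_add, ← add_assoc, Nat.sub_add_cancel (hkK m hm)] at this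
  obtain ⟨B, hB⟩ : ∃ B : Polynomial (MvPowerSeries (Fin n) ℂ), ∀ s : ℂ,
      B.eval (MvPowerSeries.C s) = f ^ K * MvPowerSeries.C (b.eval s) := by
    refine ⟨Polynomial.C (f ^ K) * b.map MvPowerSeries.C, fun s => ?_⟩
    rw [Polynomial.eval_mul, Polynomial.eval_C, Polynomial.eval_map,
      Polynomial.eval₂_at_apply]
  have h2 : ∀ s : ℂ, f ^ K * MvPowerSeries.C (b.eval s) = H s := by
    refine PF.eq ⟨B, fun s => (hB s).symm⟩ hHP fun s => ?_
    have h3 := hP s
    apply mul_right_cancel₀ (pow_ne_zero s hf)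
    have h4 : f ^ K * (b.eval (s : ℂ) • f ^ s) = H s * f ^ s := by
      rw [h3, Finsupp.sum, Finset.mul_sum, hH]
      beta_reduce
      rw [Finset.sum_mul]
      refine Finset.sum_congr rfl fun m hm => ?_
      have h5 := he m s (f ^ (s + 1)) (by rw [pow_zero, one_mul, pow_succ'])
      have h6 : f ^ K = f ^ (K - k m) * f ^ k m := by
        rw [← pow_add, Nat.sub_add_cancel (hkK m hm)]
      rw [h6, MvPowerSeries.smul_eq_C_mul, map_pow]
      linear_combination (MvPowerSeries.C (s : ℂ) ^ m * f ^ (K - k m)) * h5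
    rw [MvPowerSeries.smul_eq_C_mul] at h4
    rw [← h4]
    ring
  exact ⟨K, fun s => by rw [h2]; exact hHK s, by rw [h2]; exact hHd⟩

/-- **The functional equation at a number which is not a root.** -/
theorem FEv_of_formal {n : ℕ} {f : MvPowerSeries (Fin n) ℂ} (hf : f ≠ 0) {b : Polynomial ℂ}
    (hb : IsFormalBFunction f b) {s : ℂ} (hs : b.eval s ≠ 0) : FEv f s := by
  obtain ⟨K, hK, _⟩ := formal_key hf hb
  refine FEv_of_KF (k := K) ?_
  have h3 := hK s
  have h4 := Ideal.mul_mem_right (MvPowerSeries.C ((b.eval s)⁻¹)) _ h3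
  rwa [mul_assoc, ← map_mul, mul_inv_cancel₀ hs, map_one, mul_one] at h4

/-- the root `-1` -/
theorem formal_root {n : ℕ} {f : MvPowerSeries (Fin n) ℂ} (hf : f ≠ 0)
    (hf0 : MvPowerSeries.constantCoeff f = 0) {b : Polynomial ℂ}
    (hb : IsFormalBFunction f b) : b.eval (-1) = 0 := by
  obtain ⟨K, _, hK⟩ := formal_key hf hb
  rw [pow_succ] at hK
  obtain ⟨q, hq⟩ := (mul_dvd_mul_iff_left (pow_ne_zero K hf)).1 hK
  have h1 := congrArg MvPowerSeries.constantCoeff hq
  rwa [MvPowerSeries.constantCoeff_C, map_mul, hf0, zero_mul] at h1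

end Pool.Agent.J4H50.TF
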