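import Pool.Agent.J4H50.TT.TProd

set_option autoImplicit false
set_option linter.unusedSectionVars false
set_option linter.unusedVariables false

/-! # Functional equations at one number for power series: truncations -/

namespace Pool.Agent.J4H50.TF

open Pool.Agent.J4H50.NI Pool.Agent.J4H50.IG Pool.Agent.J4H50.TT
open Pool.Agent.N103.V (Ev)

variable {σ : Type} [Finite σ]

/-- the terms of degree less than `n` -/
noncomputable def tr (n : ℕ) (f : MvPowerSeries σ ℂ) : MvPolynomial σ ℂ :=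
  MvPowerSeries.truncTotal n f

theorem coeff_tr {n : ℕ} (f : MvPowerSeries σ ℂ) {x : σ →₀ ℕ} (h : x.degree < n) :
    (tr n f).coeff x = MvPowerSeries.coeff x f := MvPowerSeries.coeff_truncTotal f h

theorem mem_iff {n : ℕ} {P Q : MvPolynomial σ ℂ} :
    P - Q ∈ mI σ ℂ ^ n ↔ ∀ x : σ →₀ ℕ, x.degree < n → P.coeff x = Q.coeff x := by
  rw [mI, MvPolynomial.mem_pow_idealOfVars_iff']
  simp only [MvPolynomial.coeff_sub, sub_eq_zero]

theorem mem_iff0 {n : ℕ} {P : MvPolynomial σ ℂ} :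
    P ∈ mI σ ℂ ^ n ↔ ∀ x : σ →₀ ℕ, x.degree < n → P.coeff x = 0 := by
  rw [mI, MvPolynomial.mem_pow_idealOfVars_iff']

theorem tr_add (n : ℕ) (f g : MvPowerSeries σ ℂ) : tr n (f + g) = tr n f + tr n g :=
  map_add _ _ _

theorem tr_smul (n : ℕ) (c : ℂ) (f : MvPowerSeries σ ℂ) : tr n (c • f) = c • tr n f :=
  map_smul _ _ _

theorem tr_zero (n : ℕ) : tr n (0 : MvPowerSeries σ ℂ) = 0 := map_zero _

theorem tr_tr {n N : ℕ} (h : n ≤ N) (f : MvPowerSeries σ ℂ) :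
    tr N f - tr n f ∈ mI σ ℂ ^ n :=
  mem_iff.2 fun x hx => by rw [coeff_tr f hx, coeff_tr f (lt_of_lt_of_le hx h)]

theorem tr_mul (n : ℕ) (f g : MvPowerSeries σ ℂ) : tr n f * tr n g - tr n (f * g) ∈ mI σ ℂ ^ n :=
  mem_iff.2 fun x hx => by
    rw [coeff_tr _ hx]
    exact MvPowerSeries.coeff_truncTotal_mul_truncTotal_eq_coeff_mul f g hx

theorem tr_pow (n k : ℕ) (f : MvPowerSeries σ ℂ) : tr n f ^ k - tr n (f ^ k) ∈ mI σ ℂ ^ n :=
  mem_iff.2 fun x hx => by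
    rw [coeff_tr _ hx]
    exact MvPowerSeries.coeff_truncTotal_pow f hx

theorem tr_pd (n : ℕ) (i : σ) (f : MvPowerSeries σ ℂ) :
    MvPolynomial.pderiv i (tr (n + 1) f) - tr n (MvPowerSeries.pderiv ℂ i f) ∈ mI σ ℂ ^ n :=
  mem_iff.2 fun x hx => by
    rw [coeff_tr _ hx, MvPowerSeries.coeff_pderiv, MvPolynomial.coeff_pderiv, coeff_tr]
    rw [map_add, Finsupp.degree_single]
    omega

theorem tr_coe (n : ℕ) (P : MvPolynomial σ ℂ) : tr n (P : MvPowerSeries σ ℂ) - P ∈ mI σ ℂ ^ n :=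
  mem_iff.2 fun x hx => by rw [coeff_tr _ hx, MvPolynomial.coeff_coe]

theorem mem_symm {n : ℕ} {P Q : MvPolynomial σ ℂ} (h : P - Q ∈ mI σ ℂ ^ n) :
    Q - P ∈ mI σ ℂ ^ n := by
  have := Ideal.neg_mem_iff _ |>.2 h
  rwa [neg_sub] at this

theorem mem_trans {n : ℕ} {P Q R : MvPolynomial σ ℂ} (h : P - Q ∈ mI σ ℂ ^ n)
    (h' : Q - R ∈ mI σ ℂ ^ n) : P - R ∈ mI σ ℂ ^ n := by
  have := Ideal.add_mem _ h h'
  rwa [sub_add_sub_cancel] at this

/-- the ideals only depend on the jets -/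
theorem KI_swap (s : ℂ) {F G : MvPolynomial σ ℂ} {n k : ℕ} (h : G - F ∈ mI σ ℂ ^ (n + k + 1))
    (hG : G ^ k ∈ KI s G k ⊔ mI σ ℂ ^ n) : F ^ k ∈ KI s F k ⊔ mI σ ℂ ^ n := by
  obtain ⟨u, hu, v, hv, huv⟩ := Submodule.mem_sup.1 hG
  have h1 := KI_approx s h k (by omega) u hu
  have e0 : n + k + 1 - (k + 1) = n := by omega
  rw [e0] at h1
  have h2 : G ^ k - F ^ k ∈ mI σ ℂ ^ n :=
    pow_le (by omega) (Ideal.mem_of_dvd _ (sub_dvd_pow_sub_pow G F k) h)
  have e : F ^ k = u + (v - (G ^ k - F ^ k)) := by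
    rw [← huv]
    ring
  rw [e]
  exact Ideal.add_mem _ h1 (Submodule.mem_sup_right (Ideal.sub_mem _ hv h2))

/-- the functional equation of the power series `f` at the number `s` -/
def FEv (f : MvPowerSeries σ ℂ) (s : ℂ) : Prop :=
  ∃ k : ℕ, ∀ n : ℕ, tr (n + k + 1) f ^ k ∈ KI s (tr (n + k + 1) f) k ⊔ mI σ ℂ ^ n

/-- another approximation -/
theorem FEv_of {f : MvPowerSeries σ ℂ} {s : ℂ} {k : ℕ}
    (h : ∀ n : ℕ, ∃ F : MvPolynomial σ ℂ, F - tr (n + k + 1) f ∈ mI σ ℂ ^ (n + k + 1) ∧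
      F ^ k ∈ KI s F k ⊔ mI σ ℂ ^ n) : FEv f s :=
  ⟨k, fun n => by
    obtain ⟨F, hF, h1⟩ := h n
    exact KI_swap s hF h1⟩

theorem FEv_to {f : MvPowerSeries σ ℂ} {s : ℂ} {k n : ℕ}
    (h : tr (n + k + 1) f ^ k ∈ KI s (tr (n + k + 1) f) k ⊔ mI σ ℂ ^ n) (F : MvPolynomial σ ℂ)
    (hF : F - tr (n + k + 1) f ∈ mI σ ℂ ^ (n + k + 1)) : F ^ k ∈ KI s F k ⊔ mI σ ℂ ^ n :=
  KI_swap s (mem_symm hF) h

/-- polynomials -/
theorem LEv_of_FEv {F : MvPolynomial σ ℂ} {s : ℂ} (h : FEv (F : MvPowerSeries σ ℂ) s) :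
    LEv 0 F s := by
  obtain ⟨k, hk⟩ := h
  have key : ∀ n, F ^ k ∈ KI s F k ⊔ mI σ ℂ ^ n := fun n =>
    FEv_to (hk n) F (mem_symm (tr_coe _ F))
  obtain ⟨r, hr, h1⟩ := krull _ (mI σ ℂ) _ key
  refine ⟨1 - r, ?_, Ev_of_KI s (k := k) ?_⟩
  · rw [MvPolynomial.eval_zero, map_sub, map_one, (mem_m_iff _).1 hr, sub_zero]
    exact one_ne_zero
  · rw [mul_comm]
    exact h1

/-! ### The ideals of power series -/

/-- the derivative of `q f ^ (s - k)`, divided by `f ^ (s - k - 1)` -/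
noncomputable def SF (s : ℂ) (f : MvPowerSeries σ ℂ) (k : ℕ) (i : σ) (q : MvPowerSeries σ ℂ) :
    MvPowerSeries σ ℂ :=
  f * MvPowerSeries.pderiv ℂ i q + (s - (k : ℂ)) • (MvPowerSeries.pderiv ℂ i f * q)

/-- the ideals `KI` for power series -/
noncomputable def KF (s : ℂ) (f : MvPowerSeries σ ℂ) : ℕ → Ideal (MvPowerSeries σ ℂ)
  | 0 => Ideal.span ({f} ∪ Set.range fun i => MvPowerSeries.pderiv ℂ i f)
  | k + 1 => Ideal.span ({x | ∃ q ∈ KF s f k, x = f * q} ∪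
      {x | ∃ i, ∃ q ∈ KF s f k, x = SF s f k i q})

theorem KF_f (s : ℂ) (f : MvPowerSeries σ ℂ) : f ∈ KF s f 0 := Ideal.subset_span (Or.inl rfl)

theorem KF_mul {s : ℂ} {f q : MvPowerSeries σ ℂ} {k : ℕ} (hq : q ∈ KF s f k) :
    f * q ∈ KF s f (k + 1) :=
  Ideal.subset_span (Or.inl ⟨q, hq, rfl⟩)

theorem KF_SF {s : ℂ} {f q : MvPowerSeries σ ℂ} {k : ℕ} (i : σ) (hq : q ∈ KF s f k) :
    SF s f k i q ∈ KF s f (k + 1) :=
  Ideal.subset_span (Or.inr ⟨i, q, hq, rfl⟩)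

theorem KF_pow {s : ℂ} {f q : MvPowerSeries σ ℂ} {k : ℕ} (hq : q ∈ KF s f k) (n : ℕ) :
    f ^ n * q ∈ KF s f (k + n) := by
  induction n with
  | zero => simpa using hq
  | succ n ih =>
    rw [pow_succ', mul_assoc]
    exact KF_mul ih

/-- induction over the ideals -/
theorem KF_ind (s : ℂ) {f : MvPowerSeries σ ℂ} (P : ℕ → MvPowerSeries σ ℂ → Prop)
    (hz : P 0 0) (h0 : P 0 f) (h0' : ∀ i, P 0 (MvPowerSeries.pderiv ℂ i f))
    (hadd : ∀ k a b, P k a → P k b → P k (a + b))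
    (hmul : ∀ k a q, P k q → P k (a * q))
    (h1 : ∀ k q, q ∈ KF s f k → P k q → P (k + 1) (f * q))
    (h2 : ∀ k i q, q ∈ KF s f k → P k q → P (k + 1) (SF s f k i q)) (k : ℕ) :
    ∀ q ∈ KF s f k, P k q := by
  induction k with
  | zero =>
    intro q hq
    unfold KF at hq
    refine Submodule.span_induction (p := fun x _ => P 0 x) ?_ hz ?_ ?_ hq
    · rintro x (rfl | ⟨i, rfl⟩)
      · exact h0
      · exact h0' i
    · exact fun a b _ _ ha hb => hadd _ a b ha hb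
    · exact fun a q _ hq => hmul _ a q hq
  | succ k ih =>
    intro q hq
    unfold KF at hq
    refine Submodule.span_induction (p := fun x _ => P (k + 1) x) ?_ ?_ ?_ ?_ hq
    · rintro x (⟨q, hq, rfl⟩ | ⟨i, q, hq, rfl⟩)
      · exact h1 k q hq (ih q hq)
      · exact h2 k i q hq (ih q hq)
    · have := hmul (k + 1) 0 _ (h1 k 0 (Ideal.zero_mem _) (ih 0 (Ideal.zero_mem _)))
      rwa [zero_mul] at this
    · exact fun a b _ _ ha hb => hadd _ a b ha hb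
    · exact fun a q _ hq => hmul _ a q hq

/-- truncations of the elements of the ideals -/
theorem KF_tr (s : ℂ) (f : MvPowerSeries σ ℂ) (k : ℕ) : ∀ q ∈ KF s f k, ∀ n : ℕ,
    tr n q ∈ KI s (tr (n + k + 1) f) k ⊔ mI σ ℂ ^ n := by
  have hm : ∀ {k n : ℕ} {F a b : MvPolynomial σ ℂ}, a - b ∈ mI σ ℂ ^ n →
      b ∈ KI s F k ⊔ mI σ ℂ ^ n → a ∈ KI s F k ⊔ mI σ ℂ ^ n := by
    intro k n F a b h1 h2
    have := Ideal.add_mem _ h2 (Submodule.mem_sup_right h1)
    rwa [add_sub_cancel] at this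
  refine KF_ind s (fun k q => ∀ n : ℕ, tr n q ∈ KI s (tr (n + k + 1) f) k ⊔ mI σ ℂ ^ n)
    ?_ ?_ (fun i => ?_) (fun k a b ha hb => ?_) (fun k a q hq => ?_) (fun k q _ hq => ?_)
    (fun k i q _ hq => ?_) k
  · intro n
    rw [tr_zero]
    exact Ideal.zero_mem _
  · intro n
    exact hm (mem_symm (tr_tr (by omega) f)) (Submodule.mem_sup_left (KI_F s _))
  · intro n
    exact hm (mem_symm (tr_pd n i f)) (Submodule.mem_sup_left (KI_D s _ i))
  · intro n
    rw [tr_add]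
    exact Ideal.add_mem _ (ha n) (hb n)
  · intro n
    exact hm (mem_symm (tr_mul n a q)) (Ideal.mul_mem_left _ _ (hq n))
  · intro n
    obtain ⟨u, hu, v, hv, huv⟩ := Submodule.mem_sup.1 (hq n)
    have h1 : tr (n + k + 1) f - tr (n + (k + 1) + 1) f ∈ mI σ ℂ ^ (n + k + 1) :=
      mem_symm (tr_tr (by omega) f)
    have h2 := KI_approx s h1 k (by omega) u hu
    have e0 : n + k + 1 - (k + 1) = n := by omega
    rw [e0] at h2
    obtain ⟨u', hu', v', hv', huv'⟩ := Submodule.mem_sup.1 h2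
    set F := tr (n + (k + 1) + 1) f with hF
    have h3 : tr n (f * q) - F * tr n q ∈ mI σ ℂ ^ n := by
      have h4 := mem_symm (tr_mul n f q)
      have h5 : (tr n f - F) * tr n q ∈ mI σ ℂ ^ n :=
        Ideal.mul_mem_right _ _ (mem_symm (tr_tr (by omega) f))
      have := Ideal.add_mem _ h4 h5
      have e : tr n (f * q) - tr n f * tr n q + (tr n f - F) * tr n q =
          tr n (f * q) - F * tr n q := by ring
      rwa [e] at this
    refine hm h3 ?_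
    have e : F * tr n q = F * u' + (F * v' + F * v) := by
      rw [← huv, ← huv']
      ring
    rw [e]
    exact Submodule.add_mem_sup (KI_mul s hu') (Ideal.add_mem _ (Ideal.mul_mem_left _ _ hv')
      (Ideal.mul_mem_left _ _ hv))
  · intro n
    obtain ⟨u, hu, v, hv, huv⟩ := Submodule.mem_sup.1 (hq (n + 1))
    have e0 : n + 1 + k + 1 = n + (k + 1) + 1 := by omega
    rw [e0] at hu
    set F := tr (n + (k + 1) + 1) f with hF
    have hF1 : F - tr n f ∈ mI σ ℂ ^ n := tr_tr (by omega) f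
    have hF2 : MvPolynomial.pderiv i F - tr n (MvPowerSeries.pderiv ℂ i f) ∈ mI σ ℂ ^ n := by
      have h1 : MvPolynomial.pderiv i (F - tr (n + 1) f) ∈ mI σ ℂ ^ n :=
        pderiv_mem i n (tr_tr (by omega) f)
      rw [map_sub] at h1
      exact mem_trans h1 (tr_pd n i f)
    have hq1 : tr (n + 1) q - tr n q ∈ mI σ ℂ ^ n := tr_tr (by omega) q
    have h3 : tr n (SF s f k i q) - SS s F k i (tr (n + 1) q) ∈ mI σ ℂ ^ n := by
      unfold SF SS
      rw [tr_add, tr_smul]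
      have h4 := mem_symm (tr_mul n f (MvPowerSeries.pderiv ℂ i q))
      have h5 : (tr n f - F) * tr n (MvPowerSeries.pderiv ℂ i q) ∈ mI σ ℂ ^ n :=
        Ideal.mul_mem_right _ _ (mem_symm hF1)
      have h6 : F * (tr n (MvPowerSeries.pderiv ℂ i q) - MvPolynomial.pderiv i (tr (n + 1) q)) ∈
          mI σ ℂ ^ n := Ideal.mul_mem_left _ _ (mem_symm (tr_pd n i q))
      have h7 := Ideal.mul_mem_left _ (MvPolynomial.C (s - (k : ℂ)))
        (mem_symm (tr_mul n (MvPowerSeries.pderiv ℂ i f) q))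
      have h8 : MvPolynomial.C (s - (k : ℂ)) * ((tr n (MvPowerSeries.pderiv ℂ i f) -
          MvPolynomial.pderiv i F) * tr n q) ∈ mI σ ℂ ^ n :=
        Ideal.mul_mem_left _ _ (Ideal.mul_mem_right _ _ (mem_symm hF2))
      have h9 : MvPolynomial.C (s - (k : ℂ)) * (MvPolynomial.pderiv i F *
          (tr n q - tr (n + 1) q)) ∈ mI σ ℂ ^ n :=
        Ideal.mul_mem_left _ _ (Ideal.mul_mem_left _ _ (mem_symm hq1))
      have := Ideal.add_mem _ (Ideal.add_mem _ (Ideal.add_mem _ h4 h5) h6)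
        (Ideal.add_mem _ (Ideal.add_mem _ h7 h8) h9)
      convert this using 1
      rw [MvPolynomial.smul_eq_C_mul]
      ring
    refine hm h3 ?_
    have e : SS s F k i (tr (n + 1) q) = SS s F k i u + SS s F k i v := by
      rw [← huv]
      unfold SS
      rw [map_add]
      ring
    rw [e]
    refine Submodule.add_mem_sup (KI_SS s i hu) ?_
    unfold SS
    exact Ideal.add_mem _ (Ideal.mul_mem_left _ _ (pderiv_mem i n hv))
      (Ideal.mul_mem_left _ _ (pow_le (by omega) hv))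

theorem FEv_of_KF {s : ℂ} {f : MvPowerSeries σ ℂ} {k : ℕ} (h : f ^ k ∈ KF s f k) : FEv f s := by
  refine ⟨k, fun n => ?_⟩
  have h1 := KF_tr s f k _ h n
  have h2 : tr (n + k + 1) f ^ k - tr n (f ^ k) ∈ mI σ ℂ ^ n := by
    have h3 := tr_pow n k f
    have h4 : tr (n + k + 1) f ^ k - tr n f ^ k ∈ mI σ ℂ ^ n :=
      Ideal.mem_of_dvd _ (sub_dvd_pow_sub_pow _ _ k) (tr_tr (by omega) f)
    exact mem_trans h4 h3
  have := Ideal.add_mem _ h1 (Submodule.mem_sup_right h2)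
  rwa [add_sub_cancel] at this

end Pool.Agent.J4H50.TF
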