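import Pool.Agent.J4H50.TF.B

set_option autoImplicit false
set_option linter.unusedSectionVars false
set_option linter.unusedVariables false

/-! # Thom-Sebastiani sums of power series -/

namespace Pool.Agent.J4H50.TF

open MvPolynomial Pool.Agent.J4H50.NI Pool.Agent.J4H50.IG Pool.Agent.J4H50.TT
open Pool.Agent.N138.BF (tensE tensE_apply prodE_ind prodE_ext prodE_mon mulEl mulEr pdEl pdEr conv
  conv_apply pdE_ll pdE_rr pdE_lr pdE_rl)

section One

variable {σ : Type}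

/-- `Adm` up to the level `k` -/
structure AdmT (s : ℂ) (F : MvPolynomial σ ℂ) (k : ℕ) (α : ℕ → MvPolynomial σ ℂ →ₗ[ℂ] ℂ) :
    Prop where
  sft : ∀ j < k, ∀ q, α (j + 1) (F * q) = α j q
  zero : ∀ j ≤ k, ∀ q ∈ KI s F j, α j q = 0

theorem AdmT.mono {s : ℂ} {F : MvPolynomial σ ℂ} {k : ℕ} {α : ℕ → MvPolynomial σ ℂ →ₗ[ℂ] ℂ}
    (h : AdmT s F (k + 1) α) : AdmT s F k α :=
  ⟨fun j hj => h.sft j (by omega), fun j hj => h.zero j (by omega)⟩

theorem AdmT.mu {s : ℂ} {F : MvPolynomial σ ℂ} {k : ℕ} {α : ℕ → MvPolynomial σ ℂ →ₗ[ℂ] ℂ}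
    (h : AdmT s F k α) (a : MvPolynomial σ ℂ) : AdmT s F k (mu a α) :=
  ⟨fun j hj q => by rw [mu_apply, mu_apply, mul_left_comm, h.sft j hj],
    fun j hj q hq => h.zero j hj _ (Ideal.mul_mem_left _ _ hq)⟩

theorem SS_mul (s : ℂ) (F : MvPolynomial σ ℂ) (k : ℕ) (i : σ) (q : MvPolynomial σ ℂ) :
    SS s F (k + 1) i (F * q) = F * SS s F k i q := by
  unfold SS
  rw [Derivation.leibniz, smul_eq_mul, smul_eq_mul]
  have e : (C (s - ((k + 1 : ℕ) : ℂ)) : MvPolynomial σ ℂ) = C (s - (k : ℂ)) - 1 := by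
    rw [← C_1, ← C_sub]
    congr 1
    push_cast
    ring
  rw [e]
  ring

theorem AdmT.de {s : ℂ} {F : MvPolynomial σ ℂ} {k : ℕ} {α : ℕ → MvPolynomial σ ℂ →ₗ[ℂ] ℂ}
    (h : AdmT s F (k + 1) α) (i : σ) : AdmT s F k (de s F i α) := by
  refine ⟨fun j hj q => ?_, fun j hj q hq => ?_⟩
  · rw [de_apply, de_apply, SS_mul, h.sft (j + 1) (by omega)]
  · exact h.zero (j + 1) (by omega) _ (KI_SS s i hq)

theorem AdmT.f0 {s : ℂ} {F : MvPolynomial σ ℂ} {k : ℕ} {α : ℕ → MvPolynomial σ ℂ →ₗ[ℂ] ℂ}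
    (h : AdmT s F k α) (u : MvPolynomial σ ℂ) : α 0 (F * u) = 0 :=
  h.zero 0 (Nat.zero_le _) _ (Ideal.mul_mem_right _ _ (KI_F s F))

theorem AdmT.d0 {s : ℂ} {F : MvPolynomial σ ℂ} {k : ℕ} {α : ℕ → MvPolynomial σ ℂ →ₗ[ℂ] ℂ}
    (h : AdmT s F k α) (i : σ) (u : MvPolynomial σ ℂ) : α 0 (pderiv i F * u) = 0 :=
  h.zero 0 (Nat.zero_le _) _ (Ideal.mul_mem_right _ _ (KI_D s F i))

theorem de_eqT {s : ℂ} {F : MvPolynomial σ ℂ} {α : ℕ → MvPolynomial σ ℂ →ₗ[ℂ] ℂ} (j : ℕ)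
    (h : ∀ q, α (j + 1) (F * q) = α j q) (i : σ) (q : MvPolynomial σ ℂ) :
    de s F i α j q = α j (pderiv i q) + (s - j) * α (j + 1) (pderiv i F * q) := by
  rw [de_apply]
  unfold SS
  rw [map_add, h, mul_assoc, ← smul_eq_C_mul, map_smul, smul_eq_mul]

/-- extension of the value at the origin -/
theorem exists_T (F : MvPolynomial σ ℂ) (k n : ℕ) (U : Ideal (MvPolynomial σ ℂ))
    (hU : mI σ ℂ ^ n ≤ U) (h : F ^ k ∉ U) :
    ∃ g : MvPolynomial σ ℂ →ₗ[ℂ] ℂ, (∀ q ∈ U, g q = 0) ∧ ∀ q, g (F ^ k * q) = eval 0 q := by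
  classical
  set V : Submodule ℂ (MvPolynomial σ ℂ) := U.restrictScalars ℂ with hV
  set Θ : MvPolynomial σ ℂ →ₗ[ℂ] (MvPolynomial σ ℂ ⧸ V) :=
    V.mkQ.comp (LinearMap.mulLeft ℂ (F ^ k)) with hΘ
  set ev : Module.Dual ℂ (MvPolynomial σ ℂ) :=
    (MvPolynomial.aeval (R := ℂ) (0 : σ → ℂ)).toLinearMap with hev
  have heva : ∀ a, ev a = eval 0 a := by
    intro a
    show MvPolynomial.aeval 0 a = _
    rw [MvPolynomial.aeval_eq_eval]
  have h1 : ev ∈ LinearMap.range Θ.dualMap := by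
    rw [LinearMap.range_dualMap_eq_dualAnnihilator_ker, Submodule.mem_dualAnnihilator]
    intro a ha
    rw [heva]
    by_contra h0
    have h2 : Θ a = 0 := ha
    rw [hΘ, LinearMap.comp_apply, Submodule.mkQ_apply, Submodule.Quotient.mk_eq_zero] at h2
    have h3 : F ^ k * a ∈ U := h2
    obtain ⟨v, hv⟩ := inv_mod a (IsUnit.mk0 _ (by rw [← eval_zero]; exact h0)) n
    refine h ?_
    have e : F ^ k = v * (F ^ k * a) - F ^ k * (v * a - 1) := by ring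
    rw [e]
    exact Ideal.sub_mem _ (Ideal.mul_mem_left _ _ h3) (Ideal.mul_mem_left _ _ (hU hv))
  obtain ⟨g, hg⟩ := h1
  refine ⟨g.comp V.mkQ, fun q hq => ?_, fun q => ?_⟩
  · rw [LinearMap.comp_apply]
    have : V.mkQ q = 0 := by
      rw [Submodule.mkQ_apply, Submodule.Quotient.mk_eq_zero]
      exact hq
    rw [this, map_zero]
  · rw [← heva, ← hg]
    rfl

/-- the family given by the top functional -/
noncomputable def fam (F : MvPolynomial σ ℂ) (k : ℕ) (g : MvPolynomial σ ℂ →ₗ[ℂ] ℂ) (j : ℕ) :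
    MvPolynomial σ ℂ →ₗ[ℂ] ℂ := g.comp (LinearMap.mulLeft ℂ (F ^ (k - j)))

theorem fam_apply (F : MvPolynomial σ ℂ) (k : ℕ) (g : MvPolynomial σ ℂ →ₗ[ℂ] ℂ) (j : ℕ)
    (q : MvPolynomial σ ℂ) : fam F k g j q = g (F ^ (k - j) * q) := rfl

theorem fam_sft (F : MvPolynomial σ ℂ) (k : ℕ) (g : MvPolynomial σ ℂ →ₗ[ℂ] ℂ) (j : ℕ)
    (hj : j < k) (q : MvPolynomial σ ℂ) : fam F k g (j + 1) (F * q) = fam F k g j q := by
  rw [fam_apply, fam_apply, ← mul_assoc, ← pow_succ]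
  congr 3
  omega

theorem fam_m {F : MvPolynomial σ ℂ} {k : ℕ} {g : MvPolynomial σ ℂ →ₗ[ℂ] ℂ} {n : ℕ}
    (hg : ∀ q ∈ mI σ ℂ ^ n, g q = 0) (j : ℕ) : ∀ q ∈ mI σ ℂ ^ n, fam F k g j q = 0 :=
  fun q hq => hg _ (Ideal.mul_mem_left _ _ hq)

theorem exists_admT {s : ℂ} {F : MvPolynomial σ ℂ} {k n : ℕ}
    (h : F ^ k ∉ KI s F k ⊔ mI σ ℂ ^ n) :
    ∃ α : ℕ → MvPolynomial σ ℂ →ₗ[ℂ] ℂ, AdmT s F k α ∧ (∀ q, α 0 q = eval 0 q) ∧
      ∀ j, ∀ q ∈ mI σ ℂ ^ n, α j q = 0 := by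
  obtain ⟨g, hg, hg1⟩ := exists_T F k n _ le_sup_right h
  refine ⟨fam F k g, ⟨fam_sft F k g, fun j hj q hq => ?_⟩, fun q => ?_,
    fam_m fun q hq => hg q (Submodule.mem_sup_right hq)⟩
  · refine hg _ (Submodule.mem_sup_left ?_)
    have := KI_pow s hq (k - j)
    rwa [Nat.add_sub_cancel' hj] at this
  · rw [fam_apply, Nat.sub_zero, hg1]

theorem exists_sftT {F : MvPolynomial σ ℂ} {k n : ℕ} (h : F ^ k ∉ mI σ ℂ ^ n) :
    ∃ α : ℕ → MvPolynomial σ ℂ →ₗ[ℂ] ℂ, (∀ j < k, ∀ q, α (j + 1) (F * q) = α j q) ∧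
      (∀ q, α 0 q = eval 0 q) ∧ ∀ j, ∀ q ∈ mI σ ℂ ^ n, α j q = 0 := by
  obtain ⟨g, hg, hg1⟩ := exists_T F k n _ le_rfl h
  refine ⟨fam F k g, fam_sft F k g, fun q => ?_, fam_m hg⟩
  rw [fam_apply, Nat.sub_zero, hg1]

end One

section Two

variable {σ τ : Type} [Finite σ] [Finite τ]

theorem mon_split (x : σ ⊕ τ →₀ ℕ) (c : ℂ) : (monomial x c : MvPolynomial (σ ⊕ τ) ℂ) =
    rename Sum.inl (monomial (x.comapDomain Sum.inl Sum.inl_injective.injOn) c) *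
      rename Sum.inr (monomial (x.comapDomain Sum.inr Sum.inr_injective.injOn) (1 : ℂ)) := by
  have h4 : Finsupp.sumElim (x.comapDomain Sum.inl Sum.inl_injective.injOn)
      (x.comapDomain Sum.inr Sum.inr_injective.injOn) = x := by
    ext i
    rcases i with i | i <;> simp
  have h3 := prodE_mon (x.comapDomain Sum.inl Sum.inl_injective.injOn)
    (x.comapDomain Sum.inr Sum.inr_injective.injOn)
  rw [h4] at h3
  have e1 : ∀ (u : σ →₀ ℕ), (monomial u c : MvPolynomial σ ℂ) = c • monomial u 1 := fun u => by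
    rw [smul_monomial, smul_eq_mul, mul_one]
  rw [e1, map_smul, smul_mul_assoc, h3, smul_monomial, smul_eq_mul, mul_one]

theorem deg_split (x : σ ⊕ τ →₀ ℕ) : x.degree =
    (x.comapDomain Sum.inl Sum.inl_injective.injOn).degree +
      (x.comapDomain Sum.inr Sum.inr_injective.injOn).degree := by
  have h4 : Finsupp.mapDomain Sum.inl (x.comapDomain Sum.inl Sum.inl_injective.injOn) +
      Finsupp.mapDomain Sum.inr (x.comapDomain Sum.inr Sum.inr_injective.injOn) = x := by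
    ext i
    rcases i with i | i
    · rw [Finsupp.add_apply, Finsupp.mapDomain_apply Sum.inl_injective,
        Finsupp.mapDomain_of_notMem_range _ _ (by simp)]
      simp
    · rw [Finsupp.add_apply, Finsupp.mapDomain_apply Sum.inr_injective,
        Finsupp.mapDomain_of_notMem_range _ _ (by simp)]
      simp
  conv_lhs => rw [← h4]
  rw [map_add, Finsupp.degree_mapDomain, Finsupp.degree_mapDomain]

/-- a functional which is continuous in both groups of variables -/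
theorem cont_two (L : MvPolynomial (σ ⊕ τ) ℂ →ₗ[ℂ] ℂ) (n1 n2 : ℕ)
    (h1 : ∀ u ∈ mI σ ℂ ^ n1, ∀ v, L (rename Sum.inl u * rename Sum.inr v) = 0)
    (h2 : ∀ u, ∀ v ∈ mI τ ℂ ^ n2, L (rename Sum.inl u * rename Sum.inr v) = 0) :
    ∀ q ∈ mI (σ ⊕ τ) ℂ ^ (n1 + n2), L q = 0 := by
  classical
  intro q hq
  rw [q.as_sum, map_sum]
  refine Finset.sum_eq_zero fun x hx => ?_
  have hx1 : n1 + n2 ≤ x.degree := by
    by_contra h
    exact (mem_support_iff.1 hx) (mem_iff0.1 hq x (by omega))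
  rw [deg_split] at hx1
  rw [mon_split]
  have h3 : n1 ≤ (x.comapDomain Sum.inl Sum.inl_injective.injOn).degree ∨
      n2 ≤ (x.comapDomain Sum.inr Sum.inr_injective.injOn).degree := by omega
  rcases h3 with h3 | h3
  · refine h1 _ (mem_iff0.2 fun y hy => ?_) _
    rw [coeff_monomial, if_neg]
    rintro rfl
    omega
  · refine h2 _ _ (mem_iff0.2 fun y hy => ?_)
    rw [coeff_monomial, if_neg]
    rintro rfl
    omega

theorem gam_shiftT {s1 s2 : ℂ} {F : MvPolynomial σ ℂ} {G : MvPolynomial τ ℂ}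
    {α : ℕ → MvPolynomial σ ℂ →ₗ[ℂ] ℂ} {β : ℕ → MvPolynomial τ ℂ →ₗ[ℂ] ℂ} (m : ℕ)
    (hα : ∀ j ≤ m, ∀ u, α (j + 1) (F * u) = α j u) (hα0 : ∀ u, α 0 (F * u) = 0)
    (hβ : ∀ j ≤ m, ∀ u, β (j + 1) (G * u) = β j u) (hβ0 : ∀ v, β 0 (G * v) = 0)
    (q : MvPolynomial (σ ⊕ τ) ℂ) :
    gam (fa s1) (fa s2) α β (m + 1) ((rename Sum.inl F + rename Sum.inr G) * q) =
      (s1 + s2 - m) * gam (fa s1) (fa s2) α β m q := by
  refine prodE_ind (p := fun q => gam (fa s1) (fa s2) α β (m + 1)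
    ((rename Sum.inl F + rename Sum.inr G) * q) = (s1 + s2 - m) * gam (fa s1) (fa s2) α β m q)
    (fun u v => ?_) (fun x y hx hy => ?_) q
  · rw [add_mul, mulEl, mulEr, map_add, gam_apply, gam_apply, gam_apply,
      Finset.Nat.sum_antidiagonal_succ, Finset.Nat.sum_antidiagonal_succ']
    simp only [hα0, hβ0, mul_zero, zero_mul, zero_add]
    rw [← Finset.sum_add_distrib, Finset.mul_sum]
    refine Finset.sum_congr rfl fun p hp => ?_
    rw [Finset.HasAntidiagonal.mem_antidiagonal] at hp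
    rw [hα p.1 (by omega), hβ p.2 (by omega), fa_succ, fa_succ, ← hp]
    push_cast
    ring
  · rw [mul_add, map_add, map_add, mul_add, hx, hy]

theorem gam_dlT {s1 s2 : ℂ} {F : MvPolynomial σ ℂ} {G : MvPolynomial τ ℂ}
    {α : ℕ → MvPolynomial σ ℂ →ₗ[ℂ] ℂ} {β : ℕ → MvPolynomial τ ℂ →ₗ[ℂ] ℂ} (m : ℕ)
    (hα : ∀ j ≤ m, ∀ u, α (j + 1) (F * u) = α j u) (hα0 : ∀ u, α 0 (F * u) = 0)
    (hβ : ∀ j ≤ m, ∀ u, β (j + 1) (G * u) = β j u) (hβ0 : ∀ v, β 0 (G * v) = 0)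
    (i : σ) (hαi : ∀ u, α 0 (pderiv i F * u) = 0) (q : MvPolynomial (σ ⊕ τ) ℂ) :
    gam (fa s1) (fa s2) α β (m + 1)
        (SS (s1 + s2) (rename Sum.inl F + rename Sum.inr G) m (Sum.inl i) q) =
      (s1 + s2 - m) * gam (fa s1) (fa s2) (de s1 F i α) β m q := by
  unfold SS
  rw [map_add, gam_shiftT m hα hα0 hβ hβ0, mul_assoc, ← smul_eq_C_mul, map_smul, smul_eq_mul,
    ← mul_add, map_add, pdE_ll, pdE_lr, add_zero]
  congr 1
  refine prodE_ind (p := fun q => gam (fa s1) (fa s2) α β m (pderiv (Sum.inl i) q) +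
    gam (fa s1) (fa s2) α β (m + 1) (rename Sum.inl (pderiv i F) * q) =
      gam (fa s1) (fa s2) (de s1 F i α) β m q) (fun u v => ?_) (fun x y hx hy => ?_) q
  · rw [pdEl, mulEl, gam_apply, gam_apply, gam_apply, Finset.Nat.sum_antidiagonal_succ]
    simp only [hαi, mul_zero, zero_mul, zero_add]
    rw [← Finset.sum_add_distrib]
    refine Finset.sum_congr rfl fun p hp => ?_
    rw [Finset.HasAntidiagonal.mem_antidiagonal] at hp
    rw [de_eqT p.1 (hα p.1 (by omega)), fa_succ]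
    ring
  · rw [map_add, mul_add, map_add, map_add, map_add, ← hx, ← hy]
    ring

theorem gam_drT {s1 s2 : ℂ} {F : MvPolynomial σ ℂ} {G : MvPolynomial τ ℂ}
    {α : ℕ → MvPolynomial σ ℂ →ₗ[ℂ] ℂ} {β : ℕ → MvPolynomial τ ℂ →ₗ[ℂ] ℂ} (m : ℕ)
    (hα : ∀ j ≤ m, ∀ u, α (j + 1) (F * u) = α j u) (hα0 : ∀ u, α 0 (F * u) = 0)
    (hβ : ∀ j ≤ m, ∀ u, β (j + 1) (G * u) = β j u) (hβ0 : ∀ v, β 0 (G * v) = 0)
    (i : τ) (hβi : ∀ u, β 0 (pderiv i G * u) = 0) (q : MvPolynomial (σ ⊕ τ) ℂ) :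
    gam (fa s1) (fa s2) α β (m + 1)
        (SS (s1 + s2) (rename Sum.inl F + rename Sum.inr G) m (Sum.inr i) q) =
      (s1 + s2 - m) * gam (fa s1) (fa s2) α (de s2 G i β) m q := by
  unfold SS
  rw [map_add, gam_shiftT m hα hα0 hβ hβ0, mul_assoc, ← smul_eq_C_mul, map_smul, smul_eq_mul,
    ← mul_add, map_add, pdE_rr, pdE_rl, zero_add]
  congr 1
  refine prodE_ind (p := fun q => gam (fa s1) (fa s2) α β m (pderiv (Sum.inr i) q) +
    gam (fa s1) (fa s2) α β (m + 1) (rename Sum.inr (pderiv i G) * q) =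
      gam (fa s1) (fa s2) α (de s2 G i β) m q) (fun u v => ?_) (fun x y hx hy => ?_) q
  · rw [pdEr, mulEr, gam_apply, gam_apply, gam_apply, Finset.Nat.sum_antidiagonal_succ']
    simp only [hβi, mul_zero, zero_add]
    rw [← Finset.sum_add_distrib]
    refine Finset.sum_congr rfl fun p hp => ?_
    rw [Finset.HasAntidiagonal.mem_antidiagonal] at hp
    rw [de_eqT p.2 (hβ p.2 (by omega)), fa_succ]
    ring
  · rw [map_add, mul_add, map_add, map_add, map_add, ← hx, ← hy]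
    ring

/-- the convolution vanishes on the module of the sum -/
theorem gam_KIT {s1 s2 : ℂ} {F : MvPolynomial σ ℂ} {G : MvPolynomial τ ℂ} (k : ℕ) :
    ∀ q ∈ KI (s1 + s2) (rename Sum.inl F + rename Sum.inr G : MvPolynomial (σ ⊕ τ) ℂ) k,
      ∀ (α : ℕ → MvPolynomial σ ℂ →ₗ[ℂ] ℂ) (β : ℕ → MvPolynomial τ ℂ →ₗ[ℂ] ℂ),
        AdmT s1 F k α → AdmT s2 G k β → gam (fa s1) (fa s2) α β k q = 0 := by
  refine KI_ind (s1 + s2) (fun k q => ∀ (α : ℕ → MvPolynomial σ ℂ →ₗ[ℂ] ℂ)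
    (β : ℕ → MvPolynomial τ ℂ →ₗ[ℂ] ℂ), AdmT s1 F k α → AdmT s2 G k β →
      gam (fa s1) (fa s2) α β k q = 0) ?_ ?_ (fun i => ?_) (fun k a b ha hb => ?_)
    (fun k a q hq => ?_) (fun k q _ hq => ?_) (fun k i q _ hq => ?_) k
  · intro α β _ _
    rw [map_zero]
  · intro α β hα hβ
    have e : (rename Sum.inl F + rename Sum.inr G : MvPolynomial (σ ⊕ τ) ℂ) =
        rename Sum.inl F * rename Sum.inr 1 + rename Sum.inl 1 * rename Sum.inr G := by
      rw [map_one, map_one, mul_one, one_mul]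
    rw [e, map_add, gam_apply, gam_apply, Finset.Nat.antidiagonal_zero, Finset.sum_singleton,
      Finset.sum_singleton]
    have h1 := hα.f0 1
    have h2 := hβ.f0 1
    rw [mul_one] at h1 h2
    rw [h1, h2]
    ring
  · intro α β hα hβ
    rcases i with i | i
    · have e : pderiv (Sum.inl i) (rename Sum.inl F + rename Sum.inr G : MvPolynomial (σ ⊕ τ) ℂ)
          = rename Sum.inl (pderiv i F) * rename Sum.inr 1 := by
        rw [map_add, pdE_ll, pdE_lr, map_one, mul_one, add_zero]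
      rw [e, gam_apply, Finset.Nat.antidiagonal_zero, Finset.sum_singleton]
      have h1 := hα.d0 i 1
      rw [mul_one] at h1
      rw [h1]
      ring
    · have e : pderiv (Sum.inr i) (rename Sum.inl F + rename Sum.inr G : MvPolynomial (σ ⊕ τ) ℂ)
          = rename Sum.inl 1 * rename Sum.inr (pderiv i G) := by
        rw [map_add, pdE_rr, pdE_rl, map_one, one_mul, zero_add]
      rw [e, gam_apply, Finset.Nat.antidiagonal_zero, Finset.sum_singleton]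
      have h1 := hβ.d0 i 1
      rw [mul_one] at h1
      rw [h1]
      ring
  · intro α β hα hβ
    rw [map_add, ha α β hα hβ, hb α β hα hβ, add_zero]
  · intro α β hα hβ
    refine prodE_ind (p := fun a => gam (fa s1) (fa s2) α β k (a * q) = 0) (fun u v => ?_)
      (fun x y hx hy => ?_) a
    · rw [gam_mu]
      exact hq _ _ (hα.mu u) (hβ.mu v)
    · rw [add_mul, map_add, hx, hy, add_zero]
  · intro α β hα hβ
    rw [gam_shiftT k (fun j hj => hα.sft j (by omega)) hα.f0 (fun j hj => hβ.sft j (by omega))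
      hβ.f0, hq α β hα.mono hβ.mono, mul_zero]
  · intro α β hα hβ
    rcases i with i | i
    · rw [gam_dlT k (fun j hj => hα.sft j (by omega)) hα.f0 (fun j hj => hβ.sft j (by omega))
        hβ.f0 i (hα.d0 i), hq _ _ (hα.de i) hβ.mono, mul_zero]
    · rw [gam_drT k (fun j hj => hα.sft j (by omega)) hα.f0 (fun j hj => hβ.sft j (by omega))
        hβ.f0 i (hβ.d0 i), hq _ _ hα.mono (hβ.de i), mul_zero]

/-- **Thom-Sebastiani sums of jets** -/
theorem jet_sum {s1 s2 : ℂ} {F : MvPolynomial σ ℂ} {G : MvPolynomial τ ℂ} {k n1 n2 : ℕ}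
    (h1 : F ^ k ∉ KI s1 F k ⊔ mI σ ℂ ^ n1) (h2 : G ^ k ∉ KI s2 G k ⊔ mI τ ℂ ^ n2)
    (h12 : ∀ m : ℕ, s1 + s2 ≠ m) :
    (rename Sum.inl F + rename Sum.inr G : MvPolynomial (σ ⊕ τ) ℂ) ^ k ∉
      KI (s1 + s2) (rename Sum.inl F + rename Sum.inr G) k ⊔ mI (σ ⊕ τ) ℂ ^ (n1 + n2) := by
  intro h
  obtain ⟨α, hα, hα0, hαm⟩ := exists_admT h1
  obtain ⟨β, hβ, hβ0, hβm⟩ := exists_admT h2
  obtain ⟨u, hu, v, hv, huv⟩ := Submodule.mem_sup.1 h
  have h3 := gam_KIT k u hu α β hα hβ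
  have h4 : gam (fa s1) (fa s2) α β k v = 0 := by
    refine cont_two _ n1 n2 (fun u hu v => ?_) (fun u v hv => ?_) v hv
    · rw [gam_apply]
      exact Finset.sum_eq_zero fun p _ => by rw [hαm _ u hu, mul_zero, zero_mul]
    · rw [gam_apply]
      exact Finset.sum_eq_zero fun p _ => by rw [hβm _ v hv, mul_zero, mul_zero]
  have h5 : gam (fa s1) (fa s2) α β k ((rename Sum.inl F + rename Sum.inr G) ^ k) = 0 := by
    rw [← huv, map_add, h3, h4, add_zero]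
  have h6 : ∀ j ≤ k, gam (fa s1) (fa s2) α β j ((rename Sum.inl F + rename Sum.inr G) ^ j) = 0 →
      gam (fa s1) (fa s2) α β 0 1 = 0 := by
    intro j
    induction j with
    | zero => intro _ h; simpa using h
    | succ j ih =>
      intro hj h
      rw [pow_succ', gam_shiftT j (fun i hi => hα.sft i (by omega)) hα.f0
        (fun i hi => hβ.sft i (by omega)) hβ.f0] at h
      exact ih (by omega) ((mul_eq_zero.1 h).resolve_left (sub_ne_zero.2 (h12 j)))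
  have h7 := h6 k le_rfl h5
  have e : (1 : MvPolynomial (σ ⊕ τ) ℂ) = rename Sum.inl 1 * rename Sum.inr 1 := by
    rw [map_one, map_one, mul_one]
  rw [e, gam_apply, Finset.Nat.antidiagonal_zero, Finset.sum_singleton, fa_zero, fa_zero, hα0,
    hβ0, map_one, map_one] at h7
  norm_num at h7

end Two

section Ps

variable {σ τ : Type} [Finite σ] [Finite τ]

theorem tr_rename (e : σ → τ) (n : ℕ) (f : MvPowerSeries σ ℂ) :
    rename e (tr n f) - tr n (MvPowerSeries.rename e f) ∈ mI τ ℂ ^ n := by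
  have h1 : tr n (MvPowerSeries.rename e f) - rename e (tr n f) ∈ mI τ ℂ ^ n := by
    refine mem_iff.2 fun x hx => ?_
    rw [coeff_tr _ hx, MvPowerSeries.coeff_rename, ← MvPolynomial.coeff_coe,
      ← MvPowerSeries.rename_coe, MvPowerSeries.coeff_rename]
    refine Finset.sum_congr rfl fun y hy => ?_
    rw [MvPolynomial.coeff_coe, coeff_tr]
    have h2 : Finsupp.mapDomain e y = x := by simpa using hy
    rw [← h2, Finsupp.degree_mapDomain] at hx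
    exact hx
  exact mem_symm h1

/-- the jets of a power series without functional equation -/
theorem not_FEv {f : MvPowerSeries σ ℂ} {s : ℂ} (h : ¬ FEv f s) (k : ℕ) :
    ∃ n : ℕ, ∀ N, n + k + 1 ≤ N → tr N f ^ k ∉ KI s (tr N f) k ⊔ mI σ ℂ ^ n := by
  by_contra hne
  push Not at hne
  refine h ⟨k, fun n => ?_⟩
  obtain ⟨N, hN, h1⟩ := hne n
  exact KI_swap s (tr_tr hN f) h1

/-- **Thom-Sebastiani sums of power series** -/
theorem not_FEv_sum {f : MvPowerSeries σ ℂ} {g : MvPowerSeries τ ℂ} {s1 s2 : ℂ}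
    (h1 : ¬ FEv f s1) (h2 : ¬ FEv g s2) (h12 : ∀ m : ℕ, s1 + s2 ≠ m) :
    ¬ FEv (MvPowerSeries.rename Sum.inl f + MvPowerSeries.rename Sum.inr g :
      MvPowerSeries (σ ⊕ τ) ℂ) (s1 + s2) := by
  rintro ⟨k, hk⟩
  obtain ⟨n1, hn1⟩ := not_FEv h1 k
  obtain ⟨n2, hn2⟩ := not_FEv h2 k
  set N := n1 + n2 + k + 1 with hN
  refine jet_sum (hn1 N (by omega)) (hn2 N (by omega)) h12 ?_
  refine FEv_to (hk (n1 + n2)) _ ?_
  rw [tr_add, add_sub_add_comm]
  exact Ideal.add_mem _ (tr_rename _ _ _) (tr_rename _ _ _)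

end Ps

end Pool.Agent.J4H50.TF
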