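import Pool.Agent.J4H50.TF.C

set_option autoImplicit false
set_option linter.unusedSectionVars false
set_option linter.unusedVariables false

/-! # Products of power series in separate variables -/

namespace Pool.Agent.J4H50.TF

open MvPolynomial Pool.Agent.J4H50.NI Pool.Agent.J4H50.IG Pool.Agent.J4H50.TT
open Pool.Agent.N138.BF (tensE tensE_apply prodE_ind prodE_ext prodE_mon mulEl mulEr pdEl pdEr conv
  conv_apply pdE_ll pdE_rr pdE_lr pdE_rl)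

section Two

variable {σ τ : Type}

theorem del_shiftT {F : MvPolynomial σ ℂ} {G : MvPolynomial τ ℂ}
    {α : ℕ → MvPolynomial σ ℂ →ₗ[ℂ] ℂ} {β : ℕ → MvPolynomial τ ℂ →ₗ[ℂ] ℂ} (m : ℕ)
    (hα : ∀ q, α (m + 1) (F * q) = α m q) (hβ : ∀ q, β (m + 1) (G * q) = β m q)
    (q : MvPolynomial (σ ⊕ τ) ℂ) :
    del α β (m + 1) ((rename Sum.inl F * rename Sum.inr G) * q) = del α β m q := by
  refine prodE_ind (p := fun q => del α β (m + 1) ((rename Sum.inl F * rename Sum.inr G) * q) =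
    del α β m q) (fun u v => ?_) (fun x y hx hy => ?_) q
  · rw [del_mu, del_apply, mu_apply, mu_apply, hα, hβ, del_apply]
  · rw [mul_add, map_add, map_add, hx, hy]

theorem SS_add (s : ℂ) (F : MvPolynomial σ ℂ) (k : ℕ) (i : σ) (x y : MvPolynomial σ ℂ) :
    SS s F k i (x + y) = SS s F k i x + SS s F k i y := by
  unfold SS
  rw [map_add]
  ring

theorem del_dlT {s : ℂ} {F : MvPolynomial σ ℂ} {G : MvPolynomial τ ℂ}
    {α : ℕ → MvPolynomial σ ℂ →ₗ[ℂ] ℂ} {β : ℕ → MvPolynomial τ ℂ →ₗ[ℂ] ℂ} (m : ℕ)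
    (hβ : ∀ q, β (m + 1) (G * q) = β m q) (i : σ) (q : MvPolynomial (σ ⊕ τ) ℂ) :
    del α β (m + 1) (SS s (rename Sum.inl F * rename Sum.inr G) m (Sum.inl i) q) =
      del (de s F i α) β m q := by
  refine prodE_ind (p := fun q => del α β (m + 1)
    (SS s (rename Sum.inl F * rename Sum.inr G) m (Sum.inl i) q) =
      del (de s F i α) β m q) (fun u v => ?_) (fun x y hx hy => ?_) q
  · have e : SS s (rename Sum.inl F * rename Sum.inr G) m (Sum.inl i)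
        (rename Sum.inl u * rename Sum.inr v) =
        (rename Sum.inl (SS s F m i u) * rename Sum.inr (G * v) : MvPolynomial (σ ⊕ τ) ℂ) := by
      unfold SS
      rw [pdEl, pdEl]
      simp only [map_add, map_mul, rename_C]
      ring
    rw [e, del_apply, del_apply, hβ, de_apply]
  · rw [SS_add, map_add, map_add, hx, hy]

theorem del_drT {s : ℂ} {F : MvPolynomial σ ℂ} {G : MvPolynomial τ ℂ}
    {α : ℕ → MvPolynomial σ ℂ →ₗ[ℂ] ℂ} {β : ℕ → MvPolynomial τ ℂ →ₗ[ℂ] ℂ} (m : ℕ)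
    (hα : ∀ q, α (m + 1) (F * q) = α m q) (i : τ) (q : MvPolynomial (σ ⊕ τ) ℂ) :
    del α β (m + 1) (SS s (rename Sum.inl F * rename Sum.inr G) m (Sum.inr i) q) =
      del α (de s G i β) m q := by
  refine prodE_ind (p := fun q => del α β (m + 1)
    (SS s (rename Sum.inl F * rename Sum.inr G) m (Sum.inr i) q) =
      del α (de s G i β) m q) (fun u v => ?_) (fun x y hx hy => ?_) q
  · have e : SS s (rename Sum.inl F * rename Sum.inr G) m (Sum.inr i)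
        (rename Sum.inl u * rename Sum.inr v) =
        (rename Sum.inl (F * u) * rename Sum.inr (SS s G m i v) : MvPolynomial (σ ⊕ τ) ℂ) := by
      unfold SS
      rw [pdEr, pdEr]
      simp only [map_add, map_mul, rename_C]
      ring
    rw [e, del_apply, del_apply, hα, de_apply]
  · rw [SS_add, map_add, map_add, hx, hy]

/-- a class of families with levels -/
structure Lev (s : ℂ) (F : MvPolynomial σ ℂ)
    (A : ℕ → (ℕ → MvPolynomial σ ℂ →ₗ[ℂ] ℂ) → Prop) : Prop where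
  sft : ∀ k α, A (k + 1) α → ∀ q, α (k + 1) (F * q) = α k q
  mono : ∀ k α, A (k + 1) α → A k α
  mu : ∀ k α u, A k α → A k (mu u α)
  de : ∀ k α i, A (k + 1) α → A k (de s F i α)

/-- the product vanishes on the module of the product -/
theorem del_KIT {s : ℂ} {F : MvPolynomial σ ℂ} {G : MvPolynomial τ ℂ}
    {A : ℕ → (ℕ → MvPolynomial σ ℂ →ₗ[ℂ] ℂ) → Prop}
    {B : ℕ → (ℕ → MvPolynomial τ ℂ →ₗ[ℂ] ℂ) → Prop} (hA : Lev s F A) (hB : Lev s G B)
    (h1 : ∀ α β, A 0 α → B 0 β → α 0 F * β 0 G = 0)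
    (h2 : ∀ α β i, A 0 α → B 0 β → α 0 (pderiv i F) * β 0 G = 0)
    (h3 : ∀ α β i, A 0 α → B 0 β → α 0 F * β 0 (pderiv i G) = 0) (k : ℕ) :
    ∀ q ∈ KI s (rename Sum.inl F * rename Sum.inr G : MvPolynomial (σ ⊕ τ) ℂ) k,
      ∀ (α : ℕ → MvPolynomial σ ℂ →ₗ[ℂ] ℂ) (β : ℕ → MvPolynomial τ ℂ →ₗ[ℂ] ℂ),
        A k α → B k β → del α β k q = 0 := by
  refine KI_ind s (fun k q => ∀ (α : ℕ → MvPolynomial σ ℂ →ₗ[ℂ] ℂ)
    (β : ℕ → MvPolynomial τ ℂ →ₗ[ℂ] ℂ), A k α → B k β →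
      del α β k q = 0) ?_ ?_ (fun i => ?_) (fun k a b ha hb => ?_)
    (fun k a q hq => ?_) (fun k q _ hq => ?_) (fun k i q _ hq => ?_) k
  · intro α β _ _
    rw [map_zero]
  · intro α β hα hβ
    rw [del_apply, h1 α β hα hβ]
  · intro α β hα hβ
    rcases i with i | i
    · rw [pdEl, del_apply, h2 α β i hα hβ]
    · rw [pdEr, del_apply, h3 α β i hα hβ]
  · intro α β hα hβ
    rw [map_add, ha α β hα hβ, hb α β hα hβ, add_zero]
  · intro α β hα hβ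
    refine prodE_ind (p := fun a => del α β k (a * q) = 0) (fun u v => ?_)
      (fun x y hx hy => ?_) a
    · rw [del_mu]
      exact hq _ _ (hA.mu k α u hα) (hB.mu k β v hβ)
    · rw [add_mul, map_add, hx, hy, add_zero]
  · intro α β hα hβ
    rw [del_shiftT k (hA.sft k α hα) (hB.sft k β hβ), hq α β (hA.mono k α hα) (hB.mono k β hβ)]
  · intro α β hα hβ
    rcases i with i | i
    · rw [del_dlT k (hB.sft k β hβ), hq _ _ (hA.de k α i hα) (hB.mono k β hβ)]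
    · rw [del_drT k (hA.sft k α hα), hq _ _ (hA.mono k α hα) (hB.de k β i hβ)]

/-- shifts up to the level `k` -/
def SftT (F : MvPolynomial σ ℂ) (k : ℕ) (α : ℕ → MvPolynomial σ ℂ →ₗ[ℂ] ℂ) : Prop :=
  ∀ j < k, ∀ q, α (j + 1) (F * q) = α j q

theorem lev_adm (s : ℂ) (F : MvPolynomial σ ℂ) : Lev s F (AdmT s F) where
  sft := fun k α h => h.sft k (Nat.lt_succ_self k)
  mono := fun k α h => h.mono
  mu := fun k α u h => h.mu u
  de := fun k α i h => h.de i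

theorem sftT_de {s : ℂ} {F : MvPolynomial σ ℂ} {k : ℕ} {α : ℕ → MvPolynomial σ ℂ →ₗ[ℂ] ℂ}
    (h : SftT F (k + 1) α) (i : σ) : SftT F k (de s F i α) := by
  intro j hj q
  rw [de_apply, de_apply, SS_mul, h (j + 1) (by omega)]

theorem lev_sft (s : ℂ) (F : MvPolynomial σ ℂ) : Lev s F (SftT F) where
  sft := fun k α h => h k (Nat.lt_succ_self k)
  mono := fun k α h j hj => h j (by omega)
  mu := fun k α u h j hj q => by rw [mu_apply, mu_apply, mul_left_comm, h j hj]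
  de := fun k α i h => sftT_de h i

/-- `Van` up to the level `k` -/
def VanT (F : MvPolynomial σ ℂ) (k : ℕ) (α : ℕ → MvPolynomial σ ℂ →ₗ[ℂ] ℂ) : Prop :=
  SftT F k α ∧ ∀ q, α 0 (F * q) = 0

theorem lev_van (F : MvPolynomial σ ℂ) : Lev (-1) F (VanT F) where
  sft := fun k α h => h.1 k (Nat.lt_succ_self k)
  mono := fun k α h => ⟨fun j hj => h.1 j (by omega), h.2⟩
  mu := fun k α u h => ⟨fun j hj q => by rw [mu_apply, mu_apply, mul_left_comm, h.1 j hj],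
    fun q => by rw [mu_apply, mul_left_comm, h.2]⟩
  de := fun k α i h => by
    refine ⟨sftT_de h.1 i, fun q => ?_⟩
    have h0 : ∀ q, α (0 + 1) (F * q) = α 0 q := h.1 0 (by omega)
    rw [de_eqT 0 h0, Derivation.leibniz, smul_eq_mul, smul_eq_mul, map_add, h.2, Nat.cast_zero,
      mul_left_comm, h0, zero_add, mul_comm q]
    ring

theorem del_powT {F : MvPolynomial σ ℂ} {G : MvPolynomial τ ℂ} {k : ℕ}
    {α : ℕ → MvPolynomial σ ℂ →ₗ[ℂ] ℂ} {β : ℕ → MvPolynomial τ ℂ →ₗ[ℂ] ℂ}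
    (hα : SftT F k α) (hβ : SftT G k β) (H : MvPolynomial (σ ⊕ τ) ℂ) :
    del α β k ((rename Sum.inl F * rename Sum.inr G) ^ k * H) = del α β 0 H := by
  have key : ∀ j ≤ k, del α β j ((rename Sum.inl F * rename Sum.inr G) ^ j * H) =
      del α β 0 H := by
    intro j
    induction j with
    | zero => intro _; rw [pow_zero, one_mul]
    | succ j ih =>
      intro hj
      rw [pow_succ', mul_assoc, del_shiftT j (hα j (by omega)) (hβ j (by omega)),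
        ih (by omega)]
  exact key k le_rfl

/-- the general statement for products of jets -/
theorem jet_mul_gen [Finite σ] [Finite τ] {s : ℂ} {F : MvPolynomial σ ℂ} {G : MvPolynomial τ ℂ}
    {k n1 n2 : ℕ} {A : ℕ → (ℕ → MvPolynomial σ ℂ →ₗ[ℂ] ℂ) → Prop}
    {B : ℕ → (ℕ → MvPolynomial τ ℂ →ₗ[ℂ] ℂ) → Prop} (hA : Lev s F A) (hB : Lev s G B)
    (h1 : ∀ α β, A 0 α → B 0 β → α 0 F * β 0 G = 0)
    (h2 : ∀ α β i, A 0 α → B 0 β → α 0 (pderiv i F) * β 0 G = 0)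
    (h3 : ∀ α β i, A 0 α → B 0 β → α 0 F * β 0 (pderiv i G) = 0)
    {α : ℕ → MvPolynomial σ ℂ →ₗ[ℂ] ℂ} {β : ℕ → MvPolynomial τ ℂ →ₗ[ℂ] ℂ} (hα : A k α)
    (hβ : B k β) (hαs : SftT F k α) (hβs : SftT G k β) (hα0 : ∀ q, α 0 q = eval 0 q)
    (hβ0 : ∀ q, β 0 q = eval 0 q) (hαm : ∀ j, ∀ q ∈ mI σ ℂ ^ n1, α j q = 0)
    (hβm : ∀ j, ∀ q ∈ mI τ ℂ ^ n2, β j q = 0) :
    (rename Sum.inl F * rename Sum.inr G : MvPolynomial (σ ⊕ τ) ℂ) ^ k ∉
      KI s (rename Sum.inl F * rename Sum.inr G) k ⊔ mI (σ ⊕ τ) ℂ ^ (n1 + n2) := by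
  intro h
  obtain ⟨u, hu, v, hv, huv⟩ := Submodule.mem_sup.1 h
  have h4 := del_KIT hA hB h1 h2 h3 k u hu α β hα hβ
  have h5 : del α β k v = 0 := by
    refine cont_two _ n1 n2 (fun u hu v => ?_) (fun u v hv => ?_) v hv
    · rw [del_apply, hαm _ u hu, zero_mul]
    · rw [del_apply, hβm _ v hv, mul_zero]
  have h6 : del α β k ((rename Sum.inl F * rename Sum.inr G) ^ k * 1) = 0 := by
    rw [mul_one, ← huv, map_add, h4, h5, add_zero]
  rw [del_powT hαs hβs] at h6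
  have e : (1 : MvPolynomial (σ ⊕ τ) ℂ) = rename Sum.inl 1 * rename Sum.inr 1 := by
    rw [map_one, map_one, mul_one]
  rw [e, del_apply, hα0, hβ0, map_one, map_one] at h6
  norm_num at h6

theorem jet_mul [Finite σ] [Finite τ] {s : ℂ} {F : MvPolynomial σ ℂ} {G : MvPolynomial τ ℂ}
    {k n1 n2 : ℕ} (h1 : F ^ k ∉ KI s F k ⊔ mI σ ℂ ^ n1) (h2 : G ^ k ∉ mI τ ℂ ^ n2) :
    (rename Sum.inl F * rename Sum.inr G : MvPolynomial (σ ⊕ τ) ℂ) ^ k ∉
      KI s (rename Sum.inl F * rename Sum.inr G) k ⊔ mI (σ ⊕ τ) ℂ ^ (n1 + n2) := by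
  obtain ⟨α, hα, hα0, hαm⟩ := exists_admT h1
  obtain ⟨β, hβ, hβ0, hβm⟩ := exists_sftT h2
  have hF0 : ∀ α : ℕ → MvPolynomial σ ℂ →ₗ[ℂ] ℂ, AdmT s F 0 α → α 0 F = 0 :=
    fun α h => h.zero 0 le_rfl _ (KI_F s F)
  exact jet_mul_gen (lev_adm s F) (lev_sft s G) (fun α β h _ => by rw [hF0 α h, zero_mul])
    (fun α β i h _ => by rw [h.zero 0 le_rfl _ (KI_D s F i), zero_mul])
    (fun α β i h _ => by rw [hF0 α h, zero_mul]) hα hβ hα.sft hβ hα0 hβ0 hαm hβm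

theorem jet_mul_neg_one [Finite σ] [Finite τ] {F : MvPolynomial σ ℂ} {G : MvPolynomial τ ℂ}
    {k n1 n2 : ℕ} (h1 : F ^ k ∉ mI σ ℂ ^ n1) (h2 : G ^ k ∉ mI τ ℂ ^ n2) (hF : eval 0 F = 0)
    (hG : eval 0 G = 0) :
    (rename Sum.inl F * rename Sum.inr G : MvPolynomial (σ ⊕ τ) ℂ) ^ k ∉
      KI (-1) (rename Sum.inl F * rename Sum.inr G) k ⊔ mI (σ ⊕ τ) ℂ ^ (n1 + n2) := by
  obtain ⟨α, hα, hα0, hαm⟩ := exists_sftT h1
  obtain ⟨β, hβ, hβ0, hβm⟩ := exists_sftT h2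
  have hF0 : ∀ α : ℕ → MvPolynomial σ ℂ →ₗ[ℂ] ℂ, VanT F 0 α → α 0 F = 0 := fun α h => by
    have := h.2 1
    rwa [mul_one] at this
  have hG0 : ∀ α : ℕ → MvPolynomial τ ℂ →ₗ[ℂ] ℂ, VanT G 0 α → α 0 G = 0 := fun α h => by
    have := h.2 1
    rwa [mul_one] at this
  exact jet_mul_gen (lev_van F) (lev_van G) (fun α β h _ => by rw [hF0 α h, zero_mul])
    (fun α β i _ h => by rw [hG0 β h, mul_zero])
    (fun α β i h _ => by rw [hF0 α h, zero_mul])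
    (α := α) (β := β) ⟨hα, fun q => by rw [hα0, map_mul, hF, zero_mul]⟩
    ⟨hβ, fun q => by rw [hβ0, map_mul, hG, zero_mul]⟩ hα hβ hα0 hβ0 hαm hβm

end Two

section Ps

variable {σ τ : Type} [Finite σ] [Finite τ]

/-- a nonzero power series has nonzero jets -/
theorem jets_ne {f : MvPowerSeries σ ℂ} (hf : f ≠ 0) (k : ℕ) :
    ∃ n : ℕ, ∀ N, n ≤ N → tr N f ^ k ∉ mI σ ℂ ^ n := by
  have h1 : f ^ k ≠ 0 := pow_ne_zero k hf
  obtain ⟨x, hx⟩ : ∃ x, MvPowerSeries.coeff x (f ^ k) ≠ 0 := by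
    by_contra h
    push Not at h
    exact h1 (MvPowerSeries.ext fun x => by rw [h x, map_zero])
  refine ⟨x.degree + 1, fun N hN h => hx ?_⟩
  rw [← coeff_tr (n := N) _ (by omega), ← mem_iff.1 (tr_pow N k f) x (by omega)]
  exact mem_iff0.1 h x (by omega)

theorem tr_prod (f : MvPowerSeries σ ℂ) (g : MvPowerSeries τ ℂ) (N : ℕ) :
    rename Sum.inl (tr N f) * rename Sum.inr (tr N g) -
      tr N (MvPowerSeries.rename Sum.inl f * MvPowerSeries.rename Sum.inr g :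
        MvPowerSeries (σ ⊕ τ) ℂ) ∈ mI (σ ⊕ τ) ℂ ^ N := by
  have h1 := tr_mul N (MvPowerSeries.rename Sum.inl f : MvPowerSeries (σ ⊕ τ) ℂ)
    (MvPowerSeries.rename Sum.inr g)
  have h2 := tr_rename (Sum.inl : σ → σ ⊕ τ) N f
  have h3 := tr_rename (Sum.inr : τ → σ ⊕ τ) N g
  have h4 := Ideal.add_mem _ (Ideal.add_mem _ (Ideal.mul_mem_right (rename Sum.inr (tr N g)) _ h2)
    (Ideal.mul_mem_left _ (tr N (MvPowerSeries.rename Sum.inl f)) h3)) h1
  convert h4 using 1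
  ring

/-- **Products of power series** -/
theorem not_FEv_mul {f : MvPowerSeries σ ℂ} {g : MvPowerSeries τ ℂ} {s : ℂ} (hg : g ≠ 0)
    (h1 : ¬ FEv f s) :
    ¬ FEv (MvPowerSeries.rename Sum.inl f * MvPowerSeries.rename Sum.inr g :
      MvPowerSeries (σ ⊕ τ) ℂ) s := by
  rintro ⟨k, hk⟩
  obtain ⟨n1, hn1⟩ := not_FEv h1 k
  obtain ⟨n2, hn2⟩ := jets_ne hg k
  set N := n1 + n2 + k + 1 with hN
  exact jet_mul (hn1 N (by omega)) (hn2 N (by omega)) (FEv_to (hk (n1 + n2)) _ (tr_prod f g N))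

theorem eval_tr {f : MvPowerSeries σ ℂ} (hf : MvPowerSeries.constantCoeff f = 0) {N : ℕ}
    (hN : 0 < N) : eval 0 (tr N f) = 0 := by
  rw [eval_zero, constantCoeff_eq, coeff_tr _ (by simpa using hN)]
  exact hf

theorem not_FEv_mul_neg_one {f : MvPowerSeries σ ℂ} {g : MvPowerSeries τ ℂ} (hf : f ≠ 0)
    (hg : g ≠ 0) (hf0 : MvPowerSeries.constantCoeff f = 0)
    (hg0 : MvPowerSeries.constantCoeff g = 0) :
    ¬ FEv (MvPowerSeries.rename Sum.inl f * MvPowerSeries.rename Sum.inr g :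
      MvPowerSeries (σ ⊕ τ) ℂ) (-1) := by
  rintro ⟨k, hk⟩
  obtain ⟨n1, hn1⟩ := jets_ne hf k
  obtain ⟨n2, hn2⟩ := jets_ne hg k
  set N := n1 + n2 + k + 1 with hN
  exact jet_mul_neg_one (hn1 N (by omega)) (hn2 N (by omega)) (eval_tr hf0 (by omega))
    (eval_tr hg0 (by omega)) (FEv_to (hk (n1 + n2)) _ (tr_prod f g N))

end Ps

end Pool.Agent.J4H50.TF
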