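import Pool.Agent.J4H50.TF.D

set_option autoImplicit false
set_option linter.unusedSectionVars false
set_option linter.unusedVariables false

/-! # Powers of power series -/

namespace Pool.Agent.J4H50.TF

open MvPolynomial Pool.Agent.J4H50.NI Pool.Agent.J4H50.IG Pool.Agent.J4H50.TT

variable {σ : Type}

theorem KI_power (s : ℂ) (F : MvPolynomial σ ℂ) (k : ℕ) (hk : 1 ≤ k) (j : ℕ) :
    ∀ q ∈ KI s (F ^ k) j, ∃ q' ∈ KI (k * s) F j, q = F ^ ((k - 1) * j) * q' := by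
  obtain ⟨m, rfl⟩ : ∃ m, k = m + 1 := ⟨k - 1, by omega⟩
  rw [Nat.add_sub_cancel]
  refine KI_ind s (fun j q => ∃ q' ∈ KI (((m + 1 : ℕ) : ℂ) * s) F j, q = F ^ (m * j) * q')
    ?_ ?_ (fun i => ?_) (fun k a b ha hb => ?_) (fun k a q hq => ?_) (fun k q _ hq => ?_)
    (fun k i q _ hq => ?_) j
  · exact ⟨0, Ideal.zero_mem _, by rw [mul_zero]⟩
  · refine ⟨F ^ m * F, Ideal.mul_mem_left _ _ (KI_F _ F), by rw [Nat.mul_zero, pow_zero, one_mul,
      pow_succ]⟩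
  · refine ⟨(((m + 1 : ℕ) : MvPolynomial σ ℂ) * F ^ m) * pderiv i F,
      Ideal.mul_mem_left _ _ (KI_D _ F i), ?_⟩
    rw [Derivation.leibniz_pow, Nat.add_sub_cancel, smul_eq_mul, nsmul_eq_mul, Nat.mul_zero,
      pow_zero, one_mul, mul_assoc]
  · obtain ⟨a', ha', rfl⟩ := ha
    obtain ⟨b', hb', rfl⟩ := hb
    exact ⟨a' + b', Ideal.add_mem _ ha' hb', by rw [mul_add]⟩
  · obtain ⟨q', hq', rfl⟩ := hq
    exact ⟨a * q', Ideal.mul_mem_left _ _ hq', by ring⟩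
  · obtain ⟨q', hq', rfl⟩ := hq
    refine ⟨F * q', KI_mul _ hq', ?_⟩
    rw [Nat.mul_succ, pow_add]
    ring
  · obtain ⟨q', hq', rfl⟩ := hq
    refine ⟨SS (((m + 1 : ℕ) : ℂ) * s) F k i q', KI_SS _ i hq', ?_⟩
    have e1 : ((m * k : ℕ) : MvPolynomial σ ℂ) * (F ^ (m * k - 1) * F) = (m * k : ℕ) *
        F ^ (m * k) := by
      rcases Nat.eq_zero_or_pos (m * k) with h | h
      · rw [h, Nat.cast_zero, zero_mul, zero_mul]
      · rw [← pow_succ, Nat.sub_add_cancel h]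
    have e2 : (C (((m + 1 : ℕ) : ℂ) * s - (k : ℂ)) : MvPolynomial σ ℂ) =
        ((m * k : ℕ) : MvPolynomial σ ℂ) + C (s - (k : ℂ)) * ((m + 1 : ℕ) : MvPolynomial σ ℂ) := by
      rw [← map_natCast (C : ℂ →+* MvPolynomial σ ℂ) (m * k),
        ← map_natCast (C : ℂ →+* MvPolynomial σ ℂ) (m + 1), ← C_mul, ← C_add]
      congr 1
      push_cast
      ring
    unfold SS
    rw [e2, Derivation.leibniz, Derivation.leibniz_pow, Derivation.leibniz_pow,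
      Nat.add_sub_cancel, smul_eq_mul, smul_eq_mul, smul_eq_mul, smul_eq_mul, nsmul_eq_mul,
      nsmul_eq_mul, Nat.mul_succ, pow_add, pow_succ]
    linear_combination (F ^ m * q' * pderiv i F) * e1

theorem KI_power_neg (F : MvPolynomial σ ℂ) (k : ℕ) (hk : 2 ≤ k) (j : ℕ) :
    ∀ q ∈ KI (-1 / (k : ℂ)) (F ^ k) j, ∃ q' : MvPolynomial σ ℂ, q = F ^ (k * j + 1) * q' := by
  obtain ⟨m, rfl⟩ : ∃ m, k = m + 2 := ⟨k - 2, by omega⟩
  have hkc : ((m + 2 : ℕ) : ℂ) ≠ 0 := Nat.cast_ne_zero.2 (by omega)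
  refine KI_ind _ (fun j q => ∃ q' : MvPolynomial σ ℂ, q = F ^ ((m + 2) * j + 1) * q')
    ?_ ?_ (fun i => ?_) (fun k a b ha hb => ?_) (fun k a q hq => ?_) (fun k q _ hq => ?_)
    (fun k i q _ hq => ?_) j
  · exact ⟨0, by rw [mul_zero]⟩
  · exact ⟨F ^ (m + 1), by ring⟩
  · refine ⟨((m + 2 : ℕ) : MvPolynomial σ ℂ) * F ^ m * pderiv i F, ?_⟩
    rw [Derivation.leibniz_pow, smul_eq_mul, nsmul_eq_mul]
    have : m + 2 - 1 = m + 1 := by omega
    rw [this]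
    ring
  · obtain ⟨a', rfl⟩ := ha
    obtain ⟨b', rfl⟩ := hb
    exact ⟨a' + b', by rw [mul_add]⟩
  · obtain ⟨q', rfl⟩ := hq
    exact ⟨a * q', by ring⟩
  · obtain ⟨q', rfl⟩ := hq
    exact ⟨q', by ring⟩
  · obtain ⟨q', rfl⟩ := hq
    refine ⟨pderiv i q', ?_⟩
    have e2 : (C (-1 / ((m + 2 : ℕ) : ℂ) - (k : ℂ)) : MvPolynomial σ ℂ) *
        ((m + 2 : ℕ) : MvPolynomial σ ℂ) = -((((m + 2) * k + 1 : ℕ) : MvPolynomial σ ℂ)) := by
      rw [← map_natCast (C : ℂ →+* MvPolynomial σ ℂ) ((m + 2) * k + 1),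
        ← map_natCast (C : ℂ →+* MvPolynomial σ ℂ) (m + 2), ← C_mul, ← C_neg]
      congr 1
      field_simp
      push_cast
      ring
    unfold SS
    rw [Derivation.leibniz, Derivation.leibniz_pow, Derivation.leibniz_pow,
      Nat.add_sub_cancel, smul_eq_mul, smul_eq_mul, smul_eq_mul, smul_eq_mul, nsmul_eq_mul,
      nsmul_eq_mul]
    have e3 : m + 2 - 1 = m + 1 := by omega
    rw [e3]
    linear_combination (F ^ (m + 1) * pderiv i F * F ^ ((m + 2) * k + 1) * q') * e2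

theorem mem_order {n : ℕ} {P : MvPolynomial σ ℂ} [Finite σ] :
    P ∈ mI σ ℂ ^ n ↔ (n : ℕ∞) ≤ (P : MvPowerSeries σ ℂ).order := by
  rw [mem_iff0]
  constructor
  · intro h
    refine MvPowerSeries.nat_le_order fun d hd => ?_
    rw [MvPolynomial.coeff_coe]
    exact h d hd
  · intro h x hx
    rw [← MvPolynomial.coeff_coe]
    exact MvPowerSeries.coeff_of_lt_order (lt_of_lt_of_le (by exact_mod_cast hx) h)

/-- orders of products -/
theorem ord_div [Finite σ] {G x : MvPolynomial σ ℂ} {N e : ℕ} (h : G * x ∈ mI σ ℂ ^ (N + e))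
    (hG : G ∉ mI σ ℂ ^ e) : x ∈ mI σ ℂ ^ N := by
  rw [mem_order] at h hG ⊢
  rw [MvPolynomial.coe_mul, MvPowerSeries.order_mul] at h
  push Not at hG
  obtain ⟨g, hg⟩ := ENat.ne_top_iff_exists.1 (ne_top_of_lt hG)
  rw [← hg] at h hG
  have hg' : g < e := by exact_mod_cast hG
  by_contra hx
  push Not at hx
  obtain ⟨y, hy⟩ := ENat.ne_top_iff_exists.1 (ne_top_of_lt hx)
  rw [← hy] at h hx
  have hy' : y < N := by exact_mod_cast hx
  have h' : N + e ≤ g + y := by exact_mod_cast h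
  omega

variable [Finite σ]

theorem FEv_power {f : MvPowerSeries σ ℂ} (hf : f ≠ 0) {k : ℕ} (hk : 1 ≤ k) {s : ℂ}
    (h : FEv (f ^ k) s) : FEv f (k * s) := by
  obtain ⟨j, hj⟩ := h
  obtain ⟨e, he⟩ := jets_ne hf ((k - 1) * j)
  refine ⟨j, fun n => ?_⟩
  set F := tr (n + e + j + 1) f with hF
  have h1 : (F ^ k) ^ j ∈ KI s (F ^ k) j ⊔ mI σ ℂ ^ (n + e) :=
    FEv_to (hj (n + e)) _ (tr_pow _ k f)
  obtain ⟨u, hu, v, hv, huv⟩ := Submodule.mem_sup.1 h1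
  obtain ⟨q', hq', rfl⟩ := KI_power s F k hk j u hu
  have e1 : F ^ ((k - 1) * j) * (F ^ j - q') = v := by
    have e2 : (F ^ k) ^ j = F ^ ((k - 1) * j) * F ^ j := by
      rw [← pow_mul, ← pow_add]
      congr 1
      obtain ⟨m, rfl⟩ : ∃ m, k = m + 1 := ⟨k - 1, by omega⟩
      rw [Nat.add_sub_cancel]
      ring
    rw [mul_sub, ← e2, ← huv]
    ring
  have h2 : F ^ j - q' ∈ mI σ ℂ ^ n := by
    refine ord_div (G := F ^ ((k - 1) * j)) (e := e) ?_ (he _ (by omega))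
    rw [e1]
    exact hv
  refine KI_swap _ (G := F) (tr_tr (by omega) f) ?_
  have := Submodule.add_mem_sup hq' h2
  rwa [add_sub_cancel] at this

theorem not_FEv_power {f : MvPowerSeries σ ℂ} (hf : f ≠ 0)
    (hf0 : MvPowerSeries.constantCoeff f = 0) {k : ℕ} (hk : 2 ≤ k) :
    ¬ FEv (f ^ k) (-1 / (k : ℂ)) := by
  rintro ⟨j, hj⟩
  obtain ⟨e, he⟩ := jets_ne hf (k * j)
  set F := tr (1 + e + j + 1) f with hF
  have h1 : (F ^ k) ^ j ∈ KI _ (F ^ k) j ⊔ mI σ ℂ ^ (1 + e) :=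
    FEv_to (hj (1 + e)) _ (tr_pow _ k f)
  obtain ⟨u, hu, v, hv, huv⟩ := Submodule.mem_sup.1 h1
  obtain ⟨q', rfl⟩ := KI_power_neg F k hk j u hu
  have e1 : F ^ (k * j) * (1 - F * q') = v := by
    rw [← pow_mul] at huv
    rw [pow_succ] at huv
    linear_combination -huv
  have h2 : 1 - F * q' ∈ mI σ ℂ ^ 1 := by
    refine ord_div (G := F ^ (k * j)) (e := e) ?_ (he _ (by omega))
    rw [e1]
    exact hv
  rw [pow_one, mem_m_iff, map_sub, map_one, map_mul, ← eval_zero, eval_tr hf0 (by omega),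
    zero_mul, sub_zero] at h2
  exact one_ne_zero h2

end Pool.Agent.J4H50.TF
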