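import Pool.Agent.J4H50.TF.E
import Pool.Agent.J4H50.TF.Defs

set_option autoImplicit false
set_option linter.unusedSectionVars false
set_option linter.unusedVariables false

/-! # Coordinates and units for power series -/

namespace Pool.Agent.J4H50.TF

open MvPolynomial Pool.Agent.J4H50.NI Pool.Agent.J4H50.IG Pool.Agent.J4H50.TT

variable {σ : Type} [Fintype σ] [DecidableEq σ]

/-- contact equivalence of jets -/
theorem jet_swap (s : ℂ) {f F : MvPolynomial σ ℂ} {n k : ℕ} (ψ : σ → MvPolynomial σ ℂ)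
    (v : MvPolynomial σ ℂ) (hψ : NonDeg ψ) (hv : IsUnit (constantCoeff v))
    (h : v * aeval ψ f - F ∈ mI σ ℂ ^ (n + k + 1)) (hf : f ^ k ∈ KI s f k ⊔ mI σ ℂ ^ n) :
    F ^ k ∈ KI s F k ⊔ mI σ ℂ ^ n := by
  obtain ⟨a, ha, b, hb, hab⟩ := Submodule.mem_sup.1 hf
  have h1 := KI_unit s v _ k _ (KI_pull s ψ f k _ ha)
  have h2 := KI_approx s h k (by omega) _ h1
  have e0 : n + k + 1 - (k + 1) = n := by omega
  rw [e0] at h2
  have hb' : v ^ (2 * k + 2) * ((JM ψ).det ^ (2 * k + 1) * aeval ψ b) ∈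
      KI s F k ⊔ mI σ ℂ ^ n := Submodule.mem_sup_right (Ideal.mul_mem_left _ _
    (Ideal.mul_mem_left _ _ (aeval_mem ψ hψ.mem n hb)))
  have h3 := Ideal.add_mem _ h2 hb'
  rw [← mul_add, ← mul_add, ← map_add, hab, map_pow] at h3
  have h4 := Ideal.mul_mem_left _ (v ^ k) h3
  have h5 : (v * aeval ψ f) ^ k - F ^ k ∈ mI σ ℂ ^ n :=
    pow_le (by omega) (Ideal.mem_of_dvd _ (sub_dvd_pow_sub_pow _ _ k) h)
  set u := v ^ (2 * k + 2) * (JM ψ).det ^ (2 * k + 1) with hu
  have h6 : u * F ^ k ∈ KI s F k ⊔ mI σ ℂ ^ n := by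
    have e : u * F ^ k = v ^ k * (v ^ (2 * k + 2) * ((JM ψ).det ^ (2 * k + 1) *
        aeval ψ f ^ k)) - u * ((v * aeval ψ f) ^ k - F ^ k) := by
      rw [hu, mul_pow]
      ring
    rw [e]
    exact Ideal.sub_mem _ h4 (Submodule.mem_sup_right (Ideal.mul_mem_left _ _ h5))
  have h7 : IsUnit (constantCoeff u) := by
    rw [hu, map_mul, map_pow, map_pow]
    exact (hv.pow _).mul (hψ.2.pow _)
  obtain ⟨w, hw⟩ := inv_mod u h7 n
  have e : F ^ k = w * (u * F ^ k) - F ^ k * (w * u - 1) := by ring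
  rw [e]
  exact Ideal.sub_mem _ (Ideal.mul_mem_left _ _ h6)
    (Submodule.mem_sup_right (Ideal.mul_mem_left _ _ hw))

theorem tr_aeval {τ : Type} [Finite τ] (N : ℕ) (φ : σ → MvPowerSeries τ ℂ)
    (P : MvPolynomial σ ℂ) :
    aeval (fun i => tr N (φ i)) P - tr N (aeval φ P) ∈ mI τ ℂ ^ N := by
  induction P using MvPolynomial.induction_on with
  | C a =>
    rw [aeval_C, aeval_C]
    have h1 : (algebraMap ℂ (MvPowerSeries τ ℂ)) a = ((C a : MvPolynomial τ ℂ) :
        MvPowerSeries τ ℂ) := by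
      rw [MvPolynomial.coe_C]
      rfl
    rw [h1, algebraMap_eq]
    exact mem_symm (tr_coe _ _)
  | add p q hp hq =>
    rw [map_add, map_add, tr_add, add_sub_add_comm]
    exact Ideal.add_mem _ hp hq
  | mul_X p i hp =>
    rw [map_mul, map_mul, aeval_X, aeval_X]
    have h1 := tr_mul N (aeval φ p) (φ i)
    have h2 := Ideal.add_mem _ (Ideal.mul_mem_right (tr N (φ i)) _ hp) h1
    convert h2 using 1
    ring

theorem tr_subst {τ : Type} [Finite τ] (N : ℕ) (φ : σ → MvPowerSeries τ ℂ)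
    (hφ : ∀ i, MvPowerSeries.constantCoeff (φ i) = 0) (f : MvPowerSeries σ ℂ) :
    aeval (fun i => tr N (φ i)) (tr N f) - tr N (MvPowerSeries.subst φ f) ∈ mI τ ℂ ^ N := by
  have h1 := tr_aeval N φ (tr N f)
  have h2 : tr N (MvPowerSeries.subst φ f) = tr N (aeval φ (tr N f)) := by
    unfold tr
    rw [MvPowerSeries.truncTotal_subst_eq_truncTotal_truncTotal_subst hφ]
    congr 1
    exact MvPowerSeries.subst_coe _
  rw [h2]
  exact h1

theorem nonDeg_tr {φ : σ → MvPowerSeries σ ℂ} (hφ : IsCo φ) {N : ℕ} (hN : 2 ≤ N) :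
    NonDeg fun i => tr N (φ i) := by
  constructor
  · intro i
    rw [constantCoeff_eq, coeff_tr _ (by simp; omega)]
    exact hφ.1 i
  · rw [RingHom.map_det]
    have h1 : (constantCoeff : MvPolynomial σ ℂ →+* ℂ).mapMatrix
        (JM fun i => tr N (φ i)) =
          (Matrix.of fun i j => MvPowerSeries.coeff (Finsupp.single j 1) (φ i)).transpose := by
      ext i j
      rw [RingHom.mapMatrix_apply, Matrix.map_apply, Matrix.transpose_apply, JM, Matrix.of_apply,
        Matrix.of_apply, constantCoeff_eq, MvPolynomial.coeff_pderiv, zero_add, coeff_tr]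
      · simp
      · simp
        omega
    rw [h1, Matrix.det_transpose]
    exact IsUnit.mk0 _ hφ.2

/-- the same terms of degree less than `n` in suitable coordinates -/
def CE (f' f : MvPowerSeries σ ℂ) (n : ℕ) : Prop :=
  ∃ (φ : σ → MvPowerSeries σ ℂ) (u : MvPowerSeries σ ℂ), IsCo φ ∧ IsUnit u ∧
    ∀ m : σ →₀ ℕ, m.degree < n →
      MvPowerSeries.coeff m (MvPowerSeries.subst φ f') = MvPowerSeries.coeff m (u * f)

/-- **Coordinates and units.** -/
theorem FEv_coord {f f' : MvPowerSeries σ ℂ} (h : ∀ n, CE f' f n) {s : ℂ} (hf : FEv f' s) :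
    FEv f s := by
  obtain ⟨k, hk⟩ := hf
  refine ⟨k, fun n => ?_⟩
  rcases Nat.eq_zero_or_pos n with rfl | hn
  · rw [pow_zero, Ideal.one_eq_top, sup_top_eq]
    exact Submodule.mem_top
  set N := n + k + 1 with hN
  obtain ⟨φ, u, hφ, ⟨⟨u, u', huu, hu'u⟩, rfl⟩, h⟩ := h N
  change ∀ m : σ →₀ ℕ, m.degree < N →
    MvPowerSeries.coeff m (MvPowerSeries.subst φ f') = MvPowerSeries.coeff m (u * f) at h
  refine jet_swap s (fun i => tr N (φ i)) (tr N u') (nonDeg_tr hφ (by omega)) ?_ ?_ (hk n)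
  · rw [constantCoeff_eq, coeff_tr _ (by simp; omega)]
    have h1 : MvPowerSeries.constantCoeff u' * MvPowerSeries.constantCoeff u = 1 := by
      rw [← map_mul, hu'u, map_one]
    exact IsUnit.of_mul_eq_one _ h1
  · have h1 := Ideal.mul_mem_left _ (tr N u') (tr_subst N φ hφ.1 f')
    have h0 : tr N (MvPowerSeries.subst φ f') - tr N (u * f) ∈ mI σ ℂ ^ N :=
      mem_iff.2 fun x hx => by rw [coeff_tr _ hx, coeff_tr _ hx, h x hx]
    have h2 := tr_mul N u' (u * f)
    have h3 := Ideal.add_mem _ (Ideal.add_mem _ h1 (Ideal.mul_mem_left _ (tr N u') h0)) h2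
    rw [← mul_assoc u' u f, hu'u, one_mul] at h3
    convert h3 using 1
    ring

theorem coord_ne {f f' : MvPowerSeries σ ℂ} (h : ∀ n, CE f' f n) (hf : f ≠ 0) : f' ≠ 0 := by
  rintro rfl
  obtain ⟨m, hm⟩ : ∃ m : ℕ, f.order = m :=
    ⟨_, (MvPowerSeries.ne_zero_iff_order_finite.1 hf).symm⟩
  obtain ⟨φ, u, hφ, hu, h⟩ := h (m + 1)
  have h1 : MvPowerSeries.subst φ (0 : MvPowerSeries σ ℂ) = 0 := by
    rw [← MvPowerSeries.coe_substAlgHom (MvPowerSeries.hasSubst_of_constantCoeff_zero hφ.1),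
      map_zero]
  rw [h1] at h
  have h2 : ((m + 1 : ℕ) : ℕ∞) ≤ (u * f).order :=
    MvPowerSeries.nat_le_order fun d hd => by
      rw [← h d hd, map_zero]
  have h3 : u.order = 0 := by
    have h4 : MvPowerSeries.coeff 0 u ≠ 0 := (hu.map MvPowerSeries.constantCoeff).ne_zero
    have h5 := MvPowerSeries.order_le h4
    rw [map_zero, Nat.cast_zero] at h5
    exact le_antisymm h5 zero_le
  rw [MvPowerSeries.order_mul, h3, zero_add, hm] at h2
  have h4 : m + 1 ≤ m := by exact_mod_cast h2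
  omega

theorem coord_zero {f f' : MvPowerSeries σ ℂ} (h : ∀ n, CE f' f n)
    (hf : MvPowerSeries.constantCoeff f = 0) : MvPowerSeries.constantCoeff f' = 0 := by
  obtain ⟨φ, u, hφ, hu, h⟩ := h 1
  have h1 := tr_subst 1 φ hφ.1 f'
  have h2 := (mem_iff.1 h1) 0 (by simp)
  rw [coeff_tr _ (by simp), h 0 (by simp)] at h2
  have h3 : MvPowerSeries.coeff 0 (u * f) = 0 := by
    change MvPowerSeries.constantCoeff (u * f) = 0
    rw [map_mul, hf, mul_zero]
  rw [h3] at h2
  have h4 : constantCoeff (aeval (fun i => tr 1 (φ i)) (tr 1 f')) = constantCoeff (tr 1 f') :=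
    cc_aeval _ (fun i => by
      rw [constantCoeff_eq, coeff_tr _ (by simp)]
      exact hφ.1 i) _
  rw [constantCoeff_eq, h2, coeff_tr _ (by simp)] at h4
  exact h4.symm

end Pool.Agent.J4H50.TF
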