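import Pool.Agent.J4H50.TF.H

set_option autoImplicit false
set_option linter.unusedSectionVars false
set_option linter.unusedVariables false
set_option linter.unusedSimpArgs false

/-! # The monodromy conjecture for the class `TSG` -/

namespace Pool.Agent.J4H50.TF

open Pool.Agent.W574.SM Pool.Agent.N103 Pool.Agent.N103.V Pool.Agent.Y229
open Pool.Agent.J4H50.TT
open Pool.Agent.Y229.PS (IsFormalBFunction)

section Swh

variable {σ : Type} [Fintype σ] [Nonempty σ]

theorem swhF_ne {G0 : MvPolynomial σ ℂ} {g : MvPowerSeries σ ℂ} {w : σ → ℕ} {D : ℕ}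
    (hG0 : G0.IsWeightedHomogeneous w D) (hg : OrdF w (D + 1) g)
    (hz : ∀ z : σ → ℂ, (∀ i, MvPolynomial.eval z (MvPolynomial.pderiv i G0) = 0) → z = 0) :
    (G0 : MvPowerSeries σ ℂ) + g ≠ 0 := by
  intro h
  have h1 : G0 = 0 := by
    ext m
    rw [MvPolynomial.coeff_zero]
    by_contra hne
    have h2 := hG0 hne
    have h3 := congrArg (MvPowerSeries.coeff m) h
    rw [map_add, map_zero, MvPolynomial.coeff_coe] at h3
    have h4 : MvPowerSeries.coeff m g ≠ 0 := by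
      intro h4
      rw [h4, add_zero] at h3
      exact hne h3
    have h5 := hg m h4
    omega
  have h2 := hz 1 (fun i => by rw [h1, map_zero, map_zero])
  obtain ⟨i⟩ := ‹Nonempty σ›
  have h3 := congrFun h2 i
  exact one_ne_zero h3

theorem swhF_zero {G0 : MvPolynomial σ ℂ} {g : MvPowerSeries σ ℂ} {w : σ → ℕ} {D : ℕ} (hD : 0 < D)
    (hG0 : G0.IsWeightedHomogeneous w D) (hg : OrdF w (D + 1) g) :
    MvPowerSeries.constantCoeff ((G0 : MvPowerSeries σ ℂ) + g) = 0 := by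
  have h1 : MvPowerSeries.constantCoeff (G0 : MvPowerSeries σ ℂ) = 0 := by
    rw [← MvPowerSeries.coeff_zero_eq_constantCoeff_apply, MvPolynomial.coeff_coe]
    by_contra hne
    have h2 := hG0 hne
    rw [map_zero] at h2
    omega
  have h2 : MvPowerSeries.constantCoeff g = 0 := by
    by_contra hne
    have h2 := hg 0 hne
    rw [map_zero] at h2
    omega
  rw [map_add, h1, h2, add_zero]

theorem goodF_swh (G0 : MvPolynomial σ ℂ) (g : MvPowerSeries σ ℂ) (w : σ → ℕ) (D : ℕ)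
    (hw : ∀ i, 0 < w i) (hD : 0 < D) (hG0 : G0.IsWeightedHomogeneous w D)
    (hg : OrdF w (D + 1) g) (h0 : ∀ i, MvPolynomial.coeff (Finsupp.single i 1) G0 = 0)
    (h1 : ∀ i, MvPowerSeries.coeff (Finsupp.single i 1) g = 0)
    (hz : ∀ z : σ → ℂ, (∀ i, MvPolynomial.eval z (MvPolynomial.pderiv i G0) = 0) → z = 0) :
    GoodF ((G0 : MvPowerSeries σ ℂ) + g) (swZ w D) := by
  have hL := not_FEv_swh G0 g w D hw hD hG0 hg h0 h1 hz
  have hW : 0 < ∑ i, w i := Finset.sum_pos (fun i _ => hw i) Finset.univ_nonempty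
  set W := ∑ i, w i with hWd
  have hDc : (D : ℂ) ≠ 0 := Nat.cast_ne_zero.2 hD.ne'
  have hpole : ∀ s : ℂ, FEv ((G0 : MvPowerSeries σ ℂ) + g) s →
      ((W : RatFunc ℂ) + (D : RatFunc ℂ) * RatFunc.X)⁻¹ ∈ Reg s := by
    intro s hs
    refine den_inv fun h2 => ?_
    have h3 : s = -((W : ℂ) / (D : ℂ)) := by
      field_simp
      linear_combination h2
    rw [h3] at hs
    exact hL hs
  have hCm : ∀ (s c : ℂ), RatFunc.C c ∈ Reg s := fun s c => C_reg s c
  have hWm : ∀ s : ℂ, ((W : ℕ) : RatFunc ℂ) ∈ Reg s := fun s => natCast_mem _ _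
  have hX1 := X1_ne
  have hd := den_ne hW D
  have e1 : swZ w D 1 = (RatFunc.C ((AE w D 1 : ℚ) : ℂ) + ((W : RatFunc ℂ) -
      RatFunc.C ((AE w D 1 : ℚ) : ℂ)) / (RatFunc.X + 1)) /
        ((W : RatFunc ℂ) + (D : RatFunc ℂ) * RatFunc.X) := by
    rw [swZ, if_pos rfl]
  have e2 : ∀ e, 2 ≤ e → swZ w D e = RatFunc.C ((AE w D e : ℚ) : ℂ) *
        ((W : RatFunc ℂ) + (D : RatFunc ℂ) * RatFunc.X)⁻¹ := by
    intro e he
    rw [swZ, if_neg (by omega), div_eq_mul_inv]
  have e3 : (RatFunc.X + 1) * swZ w D 1 = (RatFunc.C ((AE w D 1 : ℚ) : ℂ) * RatFunc.X +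
      (W : RatFunc ℂ)) * ((W : RatFunc ℂ) + (D : RatFunc ℂ) * RatFunc.X)⁻¹ := by
    rw [e1]
    field_simp
    ring
  refine ⟨swhF_ne hG0 hg hz, swhF_zero hD hG0 hg, ?_, ?_, ?_, ?_⟩
  · intro e he s hs
    by_cases he1 : e = 1
    · subst he1
      refine of_X1 (re_ne hs) ?_
      rw [e3]
      exact (Reg s).mul_mem ((Reg s).add_mem ((Reg s).mul_mem (hCm s _) (X_mem s)) (hWm s))
        (den_inv (den_re hW hs))
    · rw [e2 e (by omega)]
      exact (Reg s).mul_mem (hCm s _) (den_inv (den_re hW hs))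
  · refine ⟨(RatFunc.C ((AE w D 1 : ℚ) : ℂ) - (W : RatFunc ℂ) - (D : RatFunc ℂ) -
      (D : RatFunc ℂ) * RatFunc.X) * ((1 / (RatFunc.X + 1)) *
        ((W : RatFunc ℂ) + (D : RatFunc ℂ) * RatFunc.X)⁻¹), ?_, ?_⟩
    · refine (Reg 0).mul_mem ((Reg 0).sub_mem ((Reg 0).sub_mem ((Reg 0).sub_mem (hCm 0 _) (hWm 0))
        (natCast_mem _ _)) ((Reg 0).mul_mem (natCast_mem _ _) (X_mem 0))) ((Reg 0).mul_mem
          (X1_inv (by norm_num)) (den_inv (den_re hW (le_of_eq Complex.zero_re.symm))))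
    · have e4 : swZ w D 1 = (1 / (RatFunc.X + 1)) * ((RatFunc.X + 1) * swZ w D 1) := by
        field_simp
      have e5 := mul_inv_cancel₀ hd
      have e6 : (1 : RatFunc ℂ) / (RatFunc.X + 1) * (RatFunc.X + 1) = 1 :=
        one_div_mul_cancel hX1
      rw [e4, e3]
      generalize ((W : RatFunc ℂ) + (D : RatFunc ℂ) * RatFunc.X)⁻¹ = y at *
      generalize (1 : RatFunc ℂ) / (RatFunc.X + 1) = z at *
      linear_combination e6 + (z * (RatFunc.X + 1)) * e5
  · intro e he s hs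
    rw [e2 e he]
    exact (Reg s).mul_mem (hCm s _) (hpole s hs)
  · intro s hs
    rw [e3]
    exact (Reg s).mul_mem ((Reg s).add_mem ((Reg s).mul_mem (hCm s _) (X_mem s)) (hWm s))
      (hpole s hs)

end Swh

/-- **The properties of the zeta functions of the class.** -/
theorem tsg_good {σ : Type} {f : MvPowerSeries σ ℂ} {Z : ℕ → RatFunc ℂ}
    (h : TSG σ f Z) : ∀ [Finite σ], GoodF f Z := by
  induction h with
  | smooth f h0 i h1 =>
    intro _
    exact goodF_smooth f h0 i h1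
  | lin h f a ha hF h0 Z hZ =>
    intro _
    have e : ∀ κ : Type, (Sum.elim (0 : Fin 2 → ℂ) (0 : κ → ℂ)) = 0 := by
      intro κ
      funext i
      rcases i with i | i <;> rfl
    have h1 := good_lin h f a ha hF 0 0 (by rw [e]; exact h0) Z hZ
    rw [e] at h1
    exact goodF_of_good h1
  | swh G0 g w D hw hD hG0 hg h0 h1 hz =>
    intro _
    exact goodF_swh G0 g w D hw hD hG0 hg h0 h1 hz
  | sum f g Z Z' _ _ M _ _ w w' hw hw' ihF ihG =>
    intro _
    exact goodF_sum ihF ihG hw hw'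
  | mul f g Z Z' _ _ ihF ihG =>
    intro _
    exact goodF_mul ihF ihG
  | pow k hk f Z _ ih =>
    intro _
    exact goodF_pow hk ih
  | extra f Z _ ih =>
    intro _
    exact goodF_extra ih
  | ren ε f Z _ ih =>
    intro _
    exact goodF_ren ih ε
  | coord f f' Z _ h ih =>
    intro _
    exact goodF_coord ih h

/-- the zeta functions of a germ -/
theorem tsg_reg {N : ℕ} {f : MvPowerSeries (Fin N) ℂ} {Z : ℕ → RatFunc ℂ}
    (hZ : TSG (Fin N) f Z) {b : Polynomial ℂ} (hb : IsFormalBFunction f b) {e : ℕ} (he : 1 ≤ e)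
    {s : ℂ} (hs : b.eval s ≠ 0) : Z e ∈ Reg s := by
  have hG : GoodF f Z := tsg_good hZ
  refine hG.all he (FEv_of_formal hG.ne hb hs) ?_
  rintro rfl
  exact hs (formal_root hG.ne hG.zero hb)

/-- **The local theorem.** -/
theorem tsg_local {N : ℕ} (f : MvPowerSeries (Fin N) ℂ) (Z : ℕ → RatFunc ℂ)
    (hZ : TSG (Fin N) f Z) (b : Polynomial ℂ) (hb : IsFormalBFunction f b) (e : ℕ) (he : 1 ≤ e)
    (s : ℂ) (hs : (Z e).denom.eval s = 0) : b.eval s = 0 := by
  by_contra hne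
  exact Reg_denom s _ (tsg_reg hZ hb he hne) hs

end Pool.Agent.J4H50.TF
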