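import Pool.Agent.J4H50.TF.F
import Pool.Agent.J4H50.TT.Swh

set_option autoImplicit false
set_option linter.unusedSectionVars false
set_option linter.unusedVariables false

/-! # Semi-weighted-homogeneous power series -/

namespace Pool.Agent.J4H50.TF

open MvPolynomial Pool.Agent.J4H50.NI Pool.Agent.J4H50.IG Pool.Agent.J4H50.TT
open Pool.Agent.N138.SU Pool.Agent.N138.SV
open Pool.Agent.N138.SU.W4b (comp_mul comp_mul_lt comp_pd)
open Pool.Agent.N138.RF.R6 (pd_comp euler)

variable {τ : Type} [Fintype τ]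

/-- **The leading period of a semi-weighted-homogeneous polynomial.** -/
theorem per_swh_loc2 (G0 G1 : MvPolynomial τ ℂ) (w : τ → ℕ) (D : ℕ) (hw : ∀ i, 0 < w i) (hD : 0 < D)
    (hG : G0.IsWeightedHomogeneous w D) (hG1 : Ord w (D + 1) G1)
    (h0 : ∀ i, constantCoeff (pderiv i G0) = 0) (h1 : ∀ i, constantCoeff (pderiv i G1) = 0)
    (hz : ∀ z : τ → ℂ, (∀ i, eval z (pderiv i G0) = 0) → z = 0) :
    ∃ S, IsPer (G0 + G1) (-(((∑ i, w i : ℕ) : ℂ) / (D : ℂ))) S ∧
      (∃ c ∈ S, c 0 1 ≠ 0) ∧ ∀ c ∈ S, ∀ m, ∀ h ∈ mI τ ℂ ^ (D * m + 1), c m h = 0 := by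
  obtain ⟨L, hL, hL1⟩ := Pool.Agent.N138.SU.W4b.t Pool.Agent.N138.SU.W4a.t G0 w D hw hD hG h0 hz
  have hD' : (D : ℂ) ≠ 0 := Nat.cast_ne_zero.2 hD.ne'
  have hw0 : ∀ i, w i ≠ 0 := fun i => (hw i).ne'
  have hG0c : constantCoeff G0 = 0 := by
    by_contra hne
    rw [constantCoeff_eq] at hne
    have h2 := hG hne
    rw [map_zero] at h2
    omega
  have hG1c : constantCoeff G1 = 0 := by
    by_contra hne
    rw [constantCoeff_eq] at hne
    have h2 := hG1 0 hne
    rw [map_zero] at h2
    omega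
  -- the terms
  set A : MvPolynomial τ ℂ → ℕ → ℕ → MvPolynomial τ ℂ →ₗ[ℂ] ℂ := fun q m j =>
    L ∘ₗ weightedHomogeneousComponent w (D * (m + j)) ∘ₗ LinearMap.mulLeft ℂ (q * G1 ^ j) with hA
  have hAap : ∀ q m j h, A q m j h =
      L (weightedHomogeneousComponent w (D * (m + j)) (q * G1 ^ j * h)) := fun q m j h => rfl
  have hA0 : ∀ q m j h, D * m < j → A q m j h = 0 := by
    intro q m j h hj
    rw [hAap]
    have h2 : Ord w (0 + j * (D + 1) + 0) (q * G1 ^ j * h) :=
      ((Ord.zero q).mul (hG1.pow j)).mul (Ord.zero h)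
    rw [h2.comp (by nlinarith), map_zero]
  set cc : MvPolynomial τ ℂ → ℕ → MvPolynomial τ ℂ →ₗ[ℂ] ℂ := fun q m =>
    ∑ j ∈ Finset.range (D * m + 1), sg j • A q m j with hcc
  have hcap : ∀ q m h N, D * m + 1 ≤ N → cc q m h = ∑ j ∈ Finset.range N, sg j * A q m j h := by
    intro q m h N hN
    rw [hcc]
    beta_reduce
    rw [LinearMap.sum_apply]
    simp only [LinearMap.smul_apply, smul_eq_mul]
    refine Finset.sum_subset (Finset.range_mono hN) fun j _ hj => ?_
    rw [hA0 q m j h (by rw [Finset.mem_range] at hj; omega), mul_zero]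
  have hzero : ∀ q h, constantCoeff h = 0 → cc q 0 h = 0 := by
    intro q h hh
    rw [hcap q 0 h 1 (by omega), Finset.sum_range_one, hAap, add_zero, mul_zero,
      weightedHomogeneousComponent_zero _ hw0]
    have : coeff 0 (q * G1 ^ 0 * h) = 0 := by
      have h2 : constantCoeff (q * G1 ^ 0 * h) = 0 := by rw [map_mul, hh, mul_zero]
      exact h2
    rw [this, C_0, map_zero, mul_zero]
  have hwd : ∀ x : τ →₀ ℕ, x.degree ≤ Finsupp.weight w x := by
    intro x
    rw [Finsupp.degree_eq_sum, Finsupp.weight_apply, Finsupp.sum_fintype _ _ (by simp)]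
    refine Finset.sum_le_sum fun i _ => ?_
    rw [smul_eq_mul]
    exact Nat.le_mul_of_pos_right _ (hw i)
  refine ⟨Set.range cc, ⟨?_, ?_, ?_, ?_, ?_⟩, ⟨_, ⟨1, rfl⟩, ?_⟩, ?_⟩
  rotate_left 6
  · rintro _ ⟨q, rfl⟩ m h hh
    rw [hcap q m h _ le_rfl]
    refine Finset.sum_eq_zero fun j _ => ?_
    have h2 : Ord w (D * m + 1) h := fun x hx => by
      by_contra hlt
      push Not at hlt
      exact hx (mem_iff0.1 hh x (lt_of_le_of_lt (hwd x) hlt))
    have h3 : Ord w (0 + j * (D + 1) + (D * m + 1)) (q * G1 ^ j * h) :=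
      ((Ord.zero q).mul (hG1.pow j)).mul h2
    rw [hAap, h3.comp (by nlinarith), map_zero, mul_zero]
  · rintro _ ⟨q, rfl⟩ h
    exact hzero q _ (by rw [map_mul, map_add, hG0c, hG1c, add_zero, zero_mul])
  · rintro _ ⟨q, rfl⟩ m h
    set N := D * (m + 1) + 1 with hN
    rw [hcap q (m + 1) _ (N + 1) (by omega), hcap q m h (N + 1) (by
      rw [hN]
      nlinarith)]
    have e1 : ∀ j, A q (m + 1) j ((G0 + G1) * h) =
        ((((∑ i, w i : ℕ) : ℂ) / (D : ℂ)) + m + j) * A q m j h + A q m (j + 1) h := by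
      intro j
      have e2 : q * G1 ^ j * ((G0 + G1) * h) =
          G0 * (q * G1 ^ j * h) + q * G1 ^ (j + 1) * h := by ring
      have e3 : D * (m + 1 + j) = D + D * (m + j) := by ring
      have e4 : D * (m + (j + 1)) = D * (m + 1 + j) := by ring
      rw [hAap, hAap, hAap, e2, map_add, map_add, e4]
      congr 1
      rw [e3, comp_mul hG]
      have h2 := euler hG L hL
        (weightedHomogeneousComponent_isWeightedHomogeneous (w := w) (D * (m + j))
          (q * G1 ^ j * h))
      apply mul_left_cancel₀ hD'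
      rw [h2]
      push_cast
      field_simp
      ring
    have e5 := sg_tele (fun j => A q m j h) N
    beta_reduce at e5
    rw [hA0 q m (N + 1) h (by rw [hN]; nlinarith), mul_zero] at e5
    rw [Finset.mul_sum, ← sub_eq_zero, ← Finset.sum_sub_distrib]
    rw [← e5]
    refine Finset.sum_congr rfl fun j _ => ?_
    rw [e1]
    ring
  · rintro _ ⟨q, rfl⟩ i h
    exact hzero q _ (by rw [map_mul, map_add, map_add, h0, h1, add_zero, zero_mul])
  · rintro _ ⟨q, rfl⟩ i
    refine ⟨_, ⟨-pderiv i q, rfl⟩, fun m h => ?_⟩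
    set N := D * (m + 1) + w i + 1 with hN
    rw [hcap q (m + 1) _ (N + 1) (by omega), hcap q m _ (N + 1) (by
      rw [hN]
      nlinarith), hcap _ m _ (N + 1) (by
      rw [hN]
      nlinarith)]
    set a : ℕ → ℂ := fun j => L (weightedHomogeneousComponent w (D * (m + j))
      (q * (G1 ^ (j - 1) * pderiv i G1) * h)) with ha
    have e1 : ∀ j, A q m j (pderiv i h) - A q (m + 1) j (pderiv i (G0 + G1) * h) =
        A (-pderiv i q) m j h - ((j : ℂ) * a j + a (j + 1)) := by
      intro j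
      have e2 : q * G1 ^ j * (pderiv i (G0 + G1) * h) =
          pderiv i G0 * (q * G1 ^ j * h) + q * (G1 ^ (j + 1 - 1) * pderiv i G1) * h := by
        rw [map_add, Nat.add_sub_cancel]
        ring
      have e3 : D * (m + 1 + j) = D * (m + (j + 1)) := by ring
      rw [hAap, hAap, hAap, e2, map_add, map_add]
      rw [comp_pd hG (N := D * (m + 1 + j)) (M := D * (m + j) + w i) (by ring), ← hL i, pd_comp]
      have e4 : pderiv i (q * G1 ^ j * h) = pderiv i q * G1 ^ j * h +
          (j : ℂ) • (q * (G1 ^ (j - 1) * pderiv i G1) * h) + q * G1 ^ j * pderiv i h := by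
        rw [pderiv_mul, pderiv_mul, Derivation.leibniz_pow, smul_eq_mul, add_mul, nsmul_eq_mul,
          smul_eq_C_mul, map_natCast]
        ring
      rw [e4, map_add, map_add, map_add, map_add, map_smul, map_smul, smul_eq_mul, ha]
      beta_reduce
      rw [e3, neg_mul, neg_mul, map_neg, map_neg]
      ring
    have ha0 : a (N + 1) = 0 := by
      rw [ha]
      beta_reduce
      rw [Nat.add_sub_cancel]
      have h2 : Ord w (0 + (N * (D + 1) + (D + 1 - w i)) + 0)
          (q * (G1 ^ N * pderiv i G1) * h) :=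
        ((Ord.zero q).mul ((hG1.pow N).mul (hG1.pderiv i))).mul (Ord.zero h)
      rw [h2.comp, map_zero]
      rw [zero_add, add_zero]
      have h3 : D * m + w i < N := by
        rw [hN]
        nlinarith
      have h4 : D * (m + (N + 1)) = D * m + D * N + D := by ring
      have h5 : N * (D + 1) = D * N + N := by ring
      omega
    have e5 := sg_tele a N
    rw [ha0, mul_zero] at e5
    rw [← Finset.sum_sub_distrib]
    have e6 : ∀ j, sg j * A q m j (pderiv i h) -
        sg j * A q (m + 1) j (pderiv i (G0 + G1) * h) =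
        sg j * A (-pderiv i q) m j h - sg j * ((j : ℂ) * a j + a (j + 1)) := by
      intro j
      rw [← mul_sub, e1, mul_sub]
    rw [Finset.sum_congr rfl fun j _ => e6 j, Finset.sum_sub_distrib, e5, sub_zero]
  · rintro _ ⟨q, rfl⟩ i
    refine ⟨_, ⟨q * X i, rfl⟩, fun m h => ?_⟩
    rw [hcap q m _ (D * m + 1) le_rfl, hcap _ m _ (D * m + 1) le_rfl]
    refine Finset.sum_congr rfl fun j _ => ?_
    rw [hAap, hAap]
    congr 3
    ring
  · rw [hcap 1 0 1 1 (by omega), Finset.sum_range_one, hAap, add_zero, mul_zero,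
      weightedHomogeneousComponent_zero _ hw0]
    have : coeff 0 ((1 : MvPolynomial τ ℂ) * G1 ^ 0 * 1) = 1 := by
      rw [pow_zero, one_mul, one_mul, coeff_zero_one]
    rw [this, C_1, hL1, mul_one]
    unfold sg
    simp

theorem OrdF.tr {w : τ → ℕ} {k : ℕ} {f : MvPowerSeries τ ℂ} (h : OrdF w k f) (n : ℕ) :
    Ord w k (tr n f) := by
  intro m hm
  by_cases h1 : m.degree < n
  · rw [coeff_tr _ h1] at hm
    exact h m hm
  · exfalso
    apply hm
    unfold TF.tr
    rw [MvPowerSeries.coeff_truncTotal_eq_zero]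
    exact not_lt.1 h1

/-- **Semi-weighted-homogeneous power series.** -/
theorem not_FEv_swh [Nonempty τ] (G0 : MvPolynomial τ ℂ) (g1 : MvPowerSeries τ ℂ) (w : τ → ℕ)
    (D : ℕ) (hw : ∀ i, 0 < w i) (hD : 0 < D)
    (hG : G0.IsWeightedHomogeneous w D) (hG1 : OrdF w (D + 1) g1)
    (h0 : ∀ i, MvPolynomial.coeff (Finsupp.single i 1) G0 = 0)
    (h1 : ∀ i, MvPowerSeries.coeff (Finsupp.single i 1) g1 = 0)
    (hz : ∀ z : τ → ℂ, (∀ i, eval z (pderiv i G0) = 0) → z = 0) :
    ¬ FEv ((G0 : MvPowerSeries τ ℂ) + g1) (-(((∑ i, w i : ℕ) : ℂ) / (D : ℂ))) := by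
  rintro ⟨k, hk⟩
  set e : ℂ := -(((∑ i, w i : ℕ) : ℂ) / (D : ℂ)) with he
  have hem : ∀ m : ℕ, e ≠ m := by
    intro m hm
    have hn : 0 < ∑ i, w i := Finset.sum_pos (fun i _ => hw i) Finset.univ_nonempty
    have h2 := congrArg Complex.re hm
    rw [he, Complex.neg_re, Complex.natCast_re] at h2
    have h3 : ((((∑ i, w i : ℕ) : ℂ)) / (D : ℂ)).re = ((∑ i, w i : ℕ) : ℝ) / (D : ℝ) := by
      rw [← Complex.ofReal_natCast, ← Complex.ofReal_natCast, ← Complex.ofReal_div,
        Complex.ofReal_re]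
    have h5 : (0 : ℝ) < ((∑ i, w i : ℕ) : ℝ) / (D : ℝ) := by positivity
    have h6 : (0 : ℝ) ≤ (m : ℝ) := Nat.cast_nonneg m
    rw [h3] at h2
    linarith
  set n := D * k + 1 with hn
  set N := n + k + 1 with hN
  have hcc : ∀ i, constantCoeff (pderiv i (tr N g1)) = 0 := by
    intro i
    rw [constantCoeff_eq, MvPolynomial.coeff_pderiv, zero_add, coeff_tr, h1, zero_mul]
    simp
    omega
  have hcc0 : ∀ i, constantCoeff (pderiv i G0) = 0 := by
    intro i
    rw [constantCoeff_eq, MvPolynomial.coeff_pderiv, zero_add, h0, zero_mul]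
  obtain ⟨S, hS, ⟨c, hc, hc1⟩, hcm⟩ := per_swh_loc2 G0 (tr N g1) w D hw hD hG (hG1.tr N) hcc0
    hcc hz
  set g := G0 + tr N g1 with hg
  have hgk : g ^ k ∈ KI e g k ⊔ mI τ ℂ ^ n := by
    refine FEv_to (hk n) g ?_
    rw [tr_add, hg]
    have := mem_symm (tr_coe N G0)
    convert this using 1
    ring
  have key : ∀ k, ∀ q ∈ KI e g k, ∀ c ∈ S, c k q = 0 := by
    intro k
    refine KI_ind e (fun k q => ∀ c ∈ S, c k q = 0) ?_ ?_ (fun i => ?_) (fun k a b ha hb => ?_)
      (fun k a q hq => ?_) (fun k q _ hq => ?_) (fun k i q _ hq => ?_) k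
    · intro c _
      rw [map_zero]
    · intro c hc
      have := hS.e1 c hc 1
      rwa [mul_one] at this
    · intro c hc
      have := hS.d1 c hc i 1
      rwa [mul_one] at this
    · intro c hc
      rw [map_add, ha c hc, hb c hc, add_zero]
    · have h1 : ∀ a : MvPolynomial τ ℂ, ∀ c ∈ S, c k (a * q) = 0 := by
        intro a
        induction a using MvPolynomial.induction_on with
        | C z =>
          intro c hc
          rw [← smul_eq_C_mul, map_smul, hq c hc, smul_zero]
        | add a b ha hb =>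
          intro c hc
          rw [add_mul, map_add, ha c hc, hb c hc, add_zero]
        | mul_X a i ha =>
          intro c hc
          obtain ⟨c', hc', h2⟩ := hS.mu c hc i
          have e1 : a * X i * q = X i * (a * q) := by ring
          rw [e1, h2, ha c' hc']
      exact h1 a
    · intro c hc
      rw [hS.e2 c hc, hq c hc, mul_zero]
    · intro c hc
      obtain ⟨c', hc', h2⟩ := hS.d2 c hc i
      unfold SS
      rw [map_add, hS.e2 c hc, mul_assoc, ← smul_eq_C_mul, map_smul, smul_eq_mul]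
      have h3 := h2 k q
      rw [hq c' hc'] at h3
      linear_combination ((k : ℂ) - e) * h3
  obtain ⟨u, hu, v, hv, huv⟩ := Submodule.mem_sup.1 hgk
  have h2 : c k (g ^ k) = 0 := by
    rw [← huv, map_add, key k u hu c hc, hcm c hc k v hv, add_zero]
  have h3 : ∀ k, c k (g ^ k) = 0 → c 0 1 = 0 := by
    intro k
    induction k with
    | zero => intro h; simpa using h
    | succ k ih =>
      intro h
      rw [pow_succ', hS.e2 c hc] at h
      exact ih ((mul_eq_zero.1 h).resolve_left (sub_ne_zero.2 (hem k).symm))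
  exact hc1 (h3 k h2)

end Pool.Agent.J4H50.TF
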