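import Pool.Agent.J4H50.TF.A
import Pool.Agent.J4H50.TF.G
import Pool.Agent.J4H50.TT.Fin

set_option autoImplicit false
set_option linter.unusedSectionVars false
set_option linter.unusedVariables false
set_option linter.unusedSimpArgs false

/-! # The properties of the zeta functions of power series -/

namespace Pool.Agent.J4H50.TF

open Pool.Agent.W574.SM Pool.Agent.N103 Pool.Agent.N103.V Pool.Agent.Y229
open Pool.Agent.J4H50.NI (LEv KI KI_F KI_D KI_mul KI_SS KI_ind)
open Pool.Agent.J4H50.IG (Ord mI mem_m_iff aeval_mem)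
open Pool.Agent.J4H50.TT

/-! ### Renaming -/

section Ren

variable {σ τ : Type}

theorem ren_mem (e : σ → τ) {n : ℕ} {q : MvPolynomial σ ℂ} (hq : q ∈ mI σ ℂ ^ n) :
    MvPolynomial.rename e q ∈ mI τ ℂ ^ n := by
  rw [← MvPolynomial.aeval_X_left_apply (MvPolynomial.rename e q), MvPolynomial.aeval_rename]
  exact aeval_mem _ (fun i => IG.X_mem _) n hq

theorem KI_ren (s : ℂ) (ε : σ ≃ τ) {F : MvPolynomial σ ℂ} (k : ℕ) :
    ∀ q ∈ KI s F k, MvPolynomial.rename ε q ∈ KI s (MvPolynomial.rename ε F) k := by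
  refine KI_ind s (fun k q => MvPolynomial.rename ε q ∈ KI s (MvPolynomial.rename ε F) k)
    ?_ ?_ (fun i => ?_) (fun k a b ha hb => ?_) (fun k a q hq => ?_) (fun k q _ hq => ?_)
    (fun k i q _ hq => ?_) k
  · rw [map_zero]
    exact Ideal.zero_mem _
  · exact KI_F s _
  · rw [← MvPolynomial.pderiv_rename ε.injective]
    exact KI_D s _ _
  · rw [map_add]
    exact Ideal.add_mem _ ha hb
  · rw [map_mul]
    exact Ideal.mul_mem_left _ _ hq
  · rw [map_mul]
    exact KI_mul s hq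
  · have h1 := KI_SS s (ε i) hq
    unfold Pool.Agent.J4H50.NI.SS at h1 ⊢
    rw [map_add, map_mul, map_mul, map_mul, MvPolynomial.rename_C,
      ← MvPolynomial.pderiv_rename ε.injective, ← MvPolynomial.pderiv_rename ε.injective]
    exact h1

theorem FEv_ren [Finite σ] [Finite τ] (ε : σ ≃ τ) {f : MvPowerSeries σ ℂ} {s : ℂ}
    (h : FEv (MvPowerSeries.rename ε f) s) : FEv f s := by
  obtain ⟨k, hk⟩ := h
  refine ⟨k, fun n => ?_⟩
  set N := n + k + 1 with hN
  have h1 := FEv_to (hk n) _ (tr_rename ε N f)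
  obtain ⟨u, hu, v, hv, huv⟩ := Submodule.mem_sup.1 h1
  have hid : ∀ q : MvPolynomial σ ℂ,
      MvPolynomial.rename ε.symm (MvPolynomial.rename ε q) = q := by
    intro q
    rw [MvPolynomial.rename_rename]
    have : (ε.symm : τ → σ) ∘ ε = id := by
      funext i
      simp
    rw [this, MvPolynomial.rename_id, AlgHom.id_apply]
  have h2 := KI_ren s ε.symm k u hu
  rw [hid] at h2
  have h3 := ren_mem ε.symm hv
  have h4 := congrArg (MvPolynomial.rename ε.symm) huv
  rw [map_add, map_pow, hid] at h4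
  rw [← h4]
  exact Submodule.add_mem_sup h2 h3

end Ren

/-! ### The properties -/

/-- the properties of the zeta functions -/
structure GoodF {σ : Type} [Finite σ] (f : MvPowerSeries σ ℂ) (Z : ℕ → RatFunc ℂ) : Prop where
  ne : f ≠ 0
  zero : MvPowerSeries.constantCoeff f = 0
  re : ∀ e, 1 ≤ e → ∀ s : ℂ, 0 ≤ s.re → Z e ∈ Reg s
  one : ∃ r ∈ Reg 0, Z 1 = 1 + RatFunc.X * r
  high : ∀ e, 2 ≤ e → ∀ s : ℂ, FEv f s → Z e ∈ Reg s
  low : ∀ s : ℂ, FEv f s → (RatFunc.X + 1) * Z 1 ∈ Reg s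

section Prop1

variable {σ : Type} [Finite σ] {f : MvPowerSeries σ ℂ} {Z : ℕ → RatFunc ℂ}

theorem GoodF.all (hG : GoodF f Z) {e : ℕ} (he : 1 ≤ e) {s : ℂ} (hE : FEv f s) (hs : s ≠ -1) :
    Z e ∈ Reg s := by
  by_cases h : e = 1
  · rw [h]
    exact of_X1 hs (hG.low s hE)
  · exact hG.high e (by omega) s hE

/-- polynomials -/
theorem goodF_of_good {F : MvPolynomial σ ℂ} (hG : Good F 0 Z) :
    GoodF (F : MvPowerSeries σ ℂ) Z where
  ne := by
    rw [Ne, MvPolynomial.coe_eq_zero_iff]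
    exact hG.ne
  zero := by
    have h1 := hG.zero
    rw [MvPolynomial.eval_zero, MvPolynomial.constantCoeff_eq] at h1
    rw [← MvPowerSeries.coeff_zero_eq_constantCoeff_apply, MvPolynomial.coeff_coe]
    exact h1
  re := hG.re
  one := hG.one
  high := fun e he s h => by
    obtain ⟨H, hH, hE⟩ := LEv_of_FEv h
    exact hG.high e he H s hH hE
  low := fun s h => by
    obtain ⟨H, hH, hE⟩ := LEv_of_FEv h
    exact hG.low H s hH hE

theorem goodF_smooth (f : MvPowerSeries σ ℂ) (h0 : MvPowerSeries.constantCoeff f = 0) (i : σ)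
    (h1 : MvPowerSeries.coeff (Finsupp.single i 1) f ≠ 0) :
    GoodF f (fun e => if e = 1 then 1 / (RatFunc.X + 1) else 0) where
  ne := by
    rintro rfl
    rw [map_zero] at h1
    exact h1 rfl
  zero := h0
  re := by
    intro e _ s hs
    split_ifs
    · exact X1_inv (re_ne hs)
    · exact (Reg s).zero_mem
  one := by
    refine ⟨-(1 / (RatFunc.X + 1)), (Reg 0).neg_mem (X1_inv (by norm_num)), ?_⟩
    rw [if_pos rfl]
    have := X1_ne
    field_simp
    ring
  high := by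
    intro e he s _
    rw [if_neg (by omega)]
    exact (Reg s).zero_mem
  low := by
    intro s _
    rw [if_pos rfl, mul_one_div_cancel X1_ne]
    exact (Reg s).one_mem

theorem GoodF.WW_re (h : GoodF f Z) {c : ℕ} (hc : 1 ≤ c) {s : ℂ} (hs : WW Z c ∉ Reg s) :
    s.re < 0 := by
  by_contra hre
  push Not at hre
  apply hs
  by_cases h1 : c = 1
  · subst h1
    rw [WW_one]
    by_cases h0 : s = 0
    · subst h0
      obtain ⟨r, hr, e⟩ := h.one
      have : ((RatFunc.X + 1) * Z 1 - 1) / RatFunc.X = 1 + (RatFunc.X + 1) * r := by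
        rw [e, div_eq_iff RatFunc.X_ne_zero]
        ring
      rw [this]
      exact (Reg 0).add_mem (Reg 0).one_mem ((Reg 0).mul_mem (X1_mem 0) hr)
    · rw [div_eq_mul_inv]
      exact (Reg s).mul_mem ((Reg s).sub_mem ((Reg s).mul_mem (X1_mem s) (h.re 1 le_rfl s hre))
        (Reg s).one_mem) (X_inv_reg s h0)
  · rw [WW_high Z (by omega)]
    exact h.re c hc s hre

theorem GoodF.WW_pole (h : GoodF f Z) {c : ℕ} (hc : 1 ≤ c) {s : ℂ} (hs : WW Z c ∉ Reg s) :
    ¬ FEv f s := by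
  intro hF
  have hre := h.WW_re hc hs
  by_cases h1 : c = 1
  · subst h1
    refine hs ?_
    rw [WW_one, div_eq_mul_inv]
    refine (Reg s).mul_mem ((Reg s).sub_mem (h.low s hF) (Reg s).one_mem) (X_inv_reg s ?_)
    rintro rfl
    rw [Complex.zero_re] at hre
    exact lt_irrefl _ hre
  · rw [WW_high Z (by omega)] at hs
    exact hs (h.high c (by omega) s hF)

/-- powers -/
theorem goodF_pow {k : ℕ} (hk : 1 ≤ k) (hG : GoodF f Z) :
    GoodF (f ^ k) (fun e => sb k 0 (Z (e / Nat.gcd e k))) where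
  ne := pow_ne_zero _ hG.ne
  zero := by rw [map_pow, hG.zero, zero_pow (by omega)]
  re := by
    intro e he s hs
    refine sb_mem _ (hG.re _ ?_ _ ?_)
    · exact Nat.div_pos (Nat.le_of_dvd (by omega) (Nat.gcd_dvd_left e k))
        (Nat.gcd_pos_of_pos_left _ (by omega))
    · rw [add_zero, Complex.mul_re, Complex.natCast_re, Complex.natCast_im, zero_mul, sub_zero]
      exact mul_nonneg (Nat.cast_nonneg k) hs
  one := by
    have hkc : (k : ℂ) ≠ 0 := Nat.cast_ne_zero.2 (by omega)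
    obtain ⟨r, hr, e⟩ := hG.one
    refine ⟨(k : RatFunc ℂ) * sb k 0 r, (Reg 0).mul_mem (natCast_mem _ _)
      (sb_mem _ (by rw [mul_zero, add_zero]; exact hr)), ?_⟩
    have h1 := sb_al hkc 0 Polynomial.X
    rw [RatFunc.algebraMap_X, Polynomial.X_comp, map_add, map_mul, RatFunc.algebraMap_X,
      RatFunc.algebraMap_C, RatFunc.algebraMap_C, map_zero, add_zero, map_natCast] at h1
    simp only [Nat.gcd_one_left, Nat.div_one]
    rw [e, sb_add hkc, sb_mul hkc, sb_one hkc, h1]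
    ring
  high := by
    intro e he s hE
    have hkc : (k : ℂ) ≠ 0 := Nat.cast_ne_zero.2 (by omega)
    have h1 : 1 ≤ e / Nat.gcd e k := Nat.div_pos (Nat.le_of_dvd (by omega) (Nat.gcd_dvd_left e k))
        (Nat.gcd_pos_of_pos_left _ (by omega))
    have hE' := FEv_power hG.ne hk hE
    refine sb_mem _ ?_
    rw [add_zero]
    by_cases h2 : 2 ≤ e / Nat.gcd e k
    · exact hG.high _ h2 _ hE'
    · by_cases h3 : (k : ℂ) * s = -1
      · exfalso
        have h4 : e / Nat.gcd e k = 1 := by omega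
        have h5 : Nat.gcd e k = e := by
          have h6 := Nat.div_mul_cancel (Nat.gcd_dvd_left e k)
          rw [h4, one_mul] at h6
          exact h6
        have h6 : e ∣ k := h5 ▸ Nat.gcd_dvd_right e k
        have h7 := Nat.le_of_dvd (by omega) h6
        refine not_FEv_power hG.ne hG.zero (k := k) (by omega) ?_
        rw [← h3, mul_div_cancel_left₀ _ hkc]
        exact hE
      · exact hG.all h1 hE' h3
  low := by
    intro s hE
    have hkc : (k : ℂ) ≠ 0 := Nat.cast_ne_zero.2 (by omega)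
    simp only [Nat.gcd_one_left, Nat.div_one]
    have hE' := FEv_power hG.ne hk hE
    by_cases hk1 : k = 1
    · subst hk1
      have h2 := hG.low _ hE'
      have h3 : ((1 : ℕ) : ℂ) * s = ((1 : ℕ) : ℂ) * s + 0 := by rw [add_zero]
      rw [h3] at h2
      have h4 := sb_mem _ h2
      have h1 := sb_al hkc 0 (Polynomial.X + 1)
      rw [X1_eq] at h1
      rw [sb_mul hkc, h1] at h4
      simpa using h4
    · refine (Reg s).mul_mem (X1_mem s) (sb_mem _ ?_)
      rw [add_zero]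
      refine hG.all le_rfl hE' fun h3 => ?_
      refine not_FEv_power hG.ne hG.zero (k := k) (by omega) ?_
      rw [← h3, mul_div_cancel_left₀ _ hkc]
      exact hE

end Prop1

section Two

variable {σ τ : Type} [Finite σ] [Finite τ] {f : MvPowerSeries σ ℂ} {g : MvPowerSeries τ ℂ}
  {Z Z' : ℕ → RatFunc ℂ} {M : ℕ} {w w' : ℕ → (ℂ × ℕ →₀ ℂ)}

theorem inl_ne (hf : f ≠ 0) : (MvPowerSeries.rename Sum.inl f : MvPowerSeries (σ ⊕ τ) ℂ) ≠ 0 := by
  intro h
  apply hf
  exact MvPowerSeries.rename_injective (R := ℂ) (Function.Embedding.inl : σ ↪ σ ⊕ τ)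
    (by rw [map_zero]; exact h)

theorem inr_ne (hg : g ≠ 0) : (MvPowerSeries.rename Sum.inr g : MvPowerSeries (σ ⊕ τ) ℂ) ≠ 0 := by
  intro h
  apply hg
  exact MvPowerSeries.rename_injective (R := ℂ) (Function.Embedding.inr : τ ↪ σ ⊕ τ)
    (by rw [map_zero]; exact h)

theorem sumF_ne (hf : f ≠ 0) (hf0 : MvPowerSeries.constantCoeff f = 0) :
    (MvPowerSeries.rename Sum.inl f + MvPowerSeries.rename Sum.inr g :
      MvPowerSeries (σ ⊕ τ) ℂ) ≠ 0 := by
  intro h
  apply hf
  ext x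
  rw [map_zero]
  by_cases hx : x = 0
  · rw [hx]
    exact hf0
  · have h1 := congrArg (MvPowerSeries.coeff
      (Finsupp.embDomain (Function.Embedding.inl : σ ↪ σ ⊕ τ) x)) h
    rw [map_add, map_zero] at h1
    have h2 : MvPowerSeries.coeff (Finsupp.embDomain (Function.Embedding.inl : σ ↪ σ ⊕ τ) x)
        (MvPowerSeries.rename Sum.inl f) = MvPowerSeries.coeff x f :=
      MvPowerSeries.coeff_embDomain_rename (Function.Embedding.inl : σ ↪ σ ⊕ τ) f x
    have h3 : MvPowerSeries.coeff (Finsupp.embDomain (Function.Embedding.inl : σ ↪ σ ⊕ τ) x)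
        (MvPowerSeries.rename Sum.inr g) = 0 := by
      refine MvPowerSeries.coeff_rename_eq_zero _ g ?_
      rintro ⟨y, hy⟩
      apply hx
      ext i
      have h4 := DFunLike.congr_fun hy (Sum.inl i)
      have h5 := Finsupp.embDomain_apply_self (Function.Embedding.inl : σ ↪ σ ⊕ τ) x i
      rw [Finsupp.mapDomain_of_notMem_range _ _ (by rintro ⟨j, hj⟩; exact absurd hj (by simp))] at h4
      rw [Finsupp.zero_apply]
      exact (h4.trans h5).symm
    rw [h2, h3, add_zero] at h1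
    exact h1

theorem tsWF_pole (hF : GoodF f Z) (hG : GoodF g Z') (hw : ∀ c, 1 ≤ c → WW Z c = lap (w c))
    (hw' : ∀ c, 1 ≤ c → WW Z' c = lap (w' c)) {e : ℕ} {s : ℂ} (hs : tsW M w w' e ∉ Reg s) :
    s.re < 0 ∧ ¬ FEv (MvPowerSeries.rename Sum.inl f + MvPowerSeries.rename Sum.inr g :
      MvPowerSeries (σ ⊕ τ) ℂ) s := by
  have h1 : ∃ c c', 1 ≤ c ∧ 1 ≤ c' ∧ ∃ p ∈ (w c).support, ∃ q ∈ (w' c').support,
      s = -p.1 + -q.1 := by
    by_contra hne
    push Not at hne
    exact hs (tsW_mem fun c c' hc hc' p hp q hq => hne c c' hc hc' p hp q hq)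
  obtain ⟨c, c', hc, hc', x, hx, y, hy, rfl⟩ := h1
  have hx1 : WW Z c ∉ Reg (-x.1) := by
    rw [hw c hc]
    exact lap_pole _ _ hx
  have hy1 : WW Z' c' ∉ Reg (-y.1) := by
    rw [hw' c' hc']
    exact lap_pole _ _ hy
  have hre : (-x.1 + -y.1).re < 0 := by
    rw [Complex.add_re]
    have := hF.WW_re hc hx1
    have := hG.WW_re hc' hy1
    linarith
  refine ⟨hre, not_FEv_sum (hF.WW_pole hc hx1) (hG.WW_pole hc' hy1) fun m hm => ?_⟩
  rw [hm, Complex.natCast_re] at hre
  exact absurd hre (not_lt.2 (Nat.cast_nonneg m))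

theorem goodF_sum (hF : GoodF f Z) (hG : GoodF g Z') (hw : ∀ c, 1 ≤ c → WW Z c = lap (w c))
    (hw' : ∀ c, 1 ≤ c → WW Z' c = lap (w' c)) :
    GoodF (MvPowerSeries.rename Sum.inl f + MvPowerSeries.rename Sum.inr g :
      MvPowerSeries (σ ⊕ τ) ℂ) (tsZ M w w') := by
  have hreg : ∀ e, ∀ s : ℂ, 0 ≤ s.re → tsW M w w' e ∈ Reg s := by
    intro e s hs
    by_contra h
    exact absurd (tsWF_pole hF hG hw hw' h).1 (not_lt.2 hs)
  refine ⟨sumF_ne hF.ne hF.zero, ?_, ?_, ?_, ?_, ?_⟩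
  · rw [map_add, MvPowerSeries.constantCoeff_rename, MvPowerSeries.constantCoeff_rename, hF.zero,
      hG.zero, add_zero]
  · intro e he s hs
    by_cases h1 : e = 1
    · subst h1
      refine of_X1 (re_ne hs) ?_
      rw [X1_tsZ]
      exact (Reg s).add_mem (Reg s).one_mem ((Reg s).mul_mem (X_mem s) (hreg 1 s hs))
    · rw [tsZ, if_neg h1]
      exact hreg e s hs
  · refine ⟨(tsW M w w' 1 - 1) * (1 / (RatFunc.X + 1)), (Reg 0).mul_mem ((Reg 0).sub_mem
      (hreg 1 0 (le_of_eq Complex.zero_re.symm)) (Reg 0).one_mem) (X1_inv (by norm_num)), ?_⟩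
    rw [tsZ, if_pos rfl]
    have := X1_ne
    field_simp
    ring
  · intro e he s hs
    rw [tsZ, if_neg (by omega)]
    by_contra h
    exact (tsWF_pole hF hG hw hw' h).2 hs
  · intro s hs
    rw [X1_tsZ]
    refine (Reg s).add_mem (Reg s).one_mem ((Reg s).mul_mem (X_mem s) ?_)
    by_contra h
    exact (tsWF_pole hF hG hw hw' h).2 hs

theorem goodF_mul (hF : GoodF f Z) (hG : GoodF g Z') :
    GoodF (MvPowerSeries.rename Sum.inl f * MvPowerSeries.rename Sum.inr g :
      MvPowerSeries (σ ⊕ τ) ℂ) (fun e => Z e * Z' e) := by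
  have hl : ∀ s : ℂ, FEv (MvPowerSeries.rename Sum.inl f * MvPowerSeries.rename Sum.inr g :
      MvPowerSeries (σ ⊕ τ) ℂ) s → FEv f s := by
    intro s h
    by_contra h'
    exact not_FEv_mul hG.ne h' h
  have hr : ∀ s : ℂ, FEv (MvPowerSeries.rename Sum.inl f * MvPowerSeries.rename Sum.inr g :
      MvPowerSeries (σ ⊕ τ) ℂ) s → FEv g s := by
    intro s h
    by_contra h'
    refine not_FEv_mul (g := f) hF.ne h' ?_
    set ε : τ ⊕ σ ≃ σ ⊕ τ := Equiv.sumComm τ σ
    refine FEv_ren ε ?_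
    have e1 : MvPowerSeries.rename ε (MvPowerSeries.rename Sum.inl g * MvPowerSeries.rename Sum.inr f :
        MvPowerSeries (τ ⊕ σ) ℂ) =
        MvPowerSeries.rename Sum.inl f * MvPowerSeries.rename Sum.inr g := by
      rw [map_mul, MvPowerSeries.rename_rename, MvPowerSeries.rename_rename, mul_comm]
      rfl
    rw [e1]
    exact h
  refine ⟨mul_ne_zero (inl_ne hF.ne) (inr_ne hG.ne), ?_, ?_, ?_, ?_, ?_⟩
  · rw [map_mul, MvPowerSeries.constantCoeff_rename, hF.zero, zero_mul]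
  · exact fun e he s hs => (Reg s).mul_mem (hF.re e he s hs) (hG.re e he s hs)
  · obtain ⟨r, hr, e⟩ := hF.one
    obtain ⟨r', hr', e'⟩ := hG.one
    refine ⟨r + r' + RatFunc.X * r * r', (Reg 0).add_mem ((Reg 0).add_mem hr hr')
      ((Reg 0).mul_mem ((Reg 0).mul_mem (X_mem 0) hr) hr'), ?_⟩
    rw [e, e']
    ring
  · intro e he s hs
    exact (Reg s).mul_mem (hF.high e he s (hl s hs)) (hG.high e he s (hr s hs))
  · intro s hs
    by_cases h0 : s = -1
    · subst h0
      exact absurd hs (not_FEv_mul_neg_one hF.ne hG.ne hF.zero hG.zero)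
    · exact (Reg s).mul_mem (X1_mem s) ((Reg s).mul_mem (hF.all le_rfl (hl s hs) h0)
        (hG.all le_rfl (hr s hs) h0))

theorem goodF_extra (hF : GoodF f Z) :
    GoodF (MvPowerSeries.rename Sum.inl f : MvPowerSeries (σ ⊕ τ) ℂ) Z := by
  have h1 : ∀ s : ℂ, FEv (MvPowerSeries.rename Sum.inl f : MvPowerSeries (σ ⊕ τ) ℂ) s →
      FEv f s := by
    intro s h
    by_contra h'
    have h2 := not_FEv_mul (g := (1 : MvPowerSeries τ ℂ)) one_ne_zero h'
    rw [map_one, mul_one] at h2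
    exact h2 h
  refine ⟨inl_ne hF.ne, ?_, hF.re, hF.one, fun e he s hs => hF.high e he s (h1 s hs),
    fun s hs => hF.low s (h1 s hs)⟩
  rw [MvPowerSeries.constantCoeff_rename, hF.zero]

theorem goodF_ren (hF : GoodF f Z) (ε : σ ≃ τ) : GoodF (MvPowerSeries.rename ε f) Z := by
  refine ⟨?_, ?_, hF.re, hF.one, fun e he s hs => hF.high e he s (FEv_ren ε hs),
    fun s hs => hF.low s (FEv_ren ε hs)⟩
  · intro h
    apply hF.ne
    exact MvPowerSeries.rename_injective (R := ℂ) ε.toEmbedding (by rw [map_zero]; exact h)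
  · rw [MvPowerSeries.constantCoeff_rename, hF.zero]

end Two

theorem goodF_coord {σ : Type} [Fintype σ] [DecidableEq σ] {f f' : MvPowerSeries σ ℂ}
    {Z : ℕ → RatFunc ℂ} (hF : GoodF f Z) (h : ∀ n, CE f' f n) : GoodF f' Z :=
  ⟨coord_ne h hF.ne, coord_zero h hF.zero, hF.re, hF.one,
    fun e he s hs => hF.high e he s (FEv_coord h hs),
    fun s hs => hF.low s (FEv_coord h hs)⟩

end Pool.Agent.J4H50.TF
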